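import Pool.Agent.P.MP_d589a8_al.Lie.Exp

/-! Sesquilinear preliminaries: adjoints, nondegenerate planes, greedy orthogonal planes. -/

namespace LieGirth

open Finset Matrix Module

variable {F I ν ι : Type} [Field F] [Fintype I] [DecidableEq I] (σ : F →+* F)

/-- The conjugate transpose for the automorphism `σ`. -/
def adj {a b : Type} (M : Matrix a b F) : Matrix b a F := (M.map σ)ᵀ

lemma adj_mul {a b c : Type} [Fintype b] (M : Matrix a b F) (N : Matrix b c F) :
    adj σ (M * N) = adj σ N * adj σ M := by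
  simp [adj, Matrix.map_mul, Matrix.transpose_mul]

lemma adj_add {a b : Type} (M N : Matrix a b F) : adj σ (M + N) = adj σ M + adj σ N := by
  ext i j; simp [adj]

lemma adj_zero {a b : Type} : adj σ (0 : Matrix a b F) = 0 := by
  ext i j; simp [adj]

lemma adj_smul {a b : Type} {t : F} (ht : σ t = t) (M : Matrix a b F) :
    adj σ (t • M) = t • adj σ M := by
  ext i j; simp [adj, ht]

lemma adj_adj (hσ : ∀ a, σ (σ a) = a) {a b : Type} (M : Matrix a b F) : adj σ (adj σ M) = M := by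
  ext i j; simp [adj, hσ]

lemma st_dot (hσ : ∀ a, σ (σ a) = a) (u v : I → F) : (σ ∘ u) ⬝ᵥ v = σ (u ⬝ᵥ (σ ∘ v)) := by
  simp [dotProduct, hσ]

lemma finrank_le_map_add_ker {V V' : Type*} [AddCommGroup V] [Module F V] [AddCommGroup V']
    [Module F V'] [FiniteDimensional F V] (f : V →ₗ[F] V') (p : Submodule F V) :
    finrank F p ≤ finrank F (p.map f) + finrank F (LinearMap.ker f) := by
  have h1 := LinearMap.finrank_range_add_finrank_ker (f.domRestrict p)
  rw [LinearMap.range_domRestrict, LinearMap.ker_domRestrict] at h1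
  have h2 : finrank F ((LinearMap.ker f).comap p.subtype) ≤ finrank F (LinearMap.ker f) := by
    rw [← Submodule.finrank_map_subtype_eq]
    exact Submodule.finrank_mono (Submodule.map_comap_le _ _)
  omega

lemma card_le_add_ker [Fintype ν] (S : Matrix ν I F) :
    Fintype.card I ≤ Fintype.card ν + finrank F (LinearMap.ker S.mulVecLin) := by
  have h1 := LinearMap.finrank_range_add_finrank_ker S.mulVecLin
  have h2 := Submodule.finrank_le (LinearMap.range S.mulVecLin)
  simp only [Module.finrank_fintype_fun_eq_card] at h1 h2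
  omega

lemma exists_pair (hσ : ∀ a, σ (σ a) = a) [Fintype ν] (S : Matrix ν I F) (C : Matrix I I F)
    {ρ : ℕ} (hC : finrank F (LinearMap.ker C.mulVecLin) ≤ ρ)
    (h : 2 * Fintype.card ν + ρ < Fintype.card I) :
    ∃ x y : I → F, S *ᵥ x = 0 ∧ S *ᵥ y = 0 ∧ (σ ∘ x) ⬝ᵥ C *ᵥ y ≠ 0 := by
  let U : Submodule F (I → F) := Submodule.span F (Set.range fun i => σ ∘ S i)
  have hU : finrank F U ≤ Fintype.card ν := finrank_range_le_card (R := F) _
  have h1 : ¬ (LinearMap.ker S.mulVecLin).map C.mulVecLin ≤ U := fun hle => by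
    have h2 := Submodule.finrank_mono hle
    have h3 := finrank_le_map_add_ker C.mulVecLin (LinearMap.ker S.mulVecLin)
    have h4 := card_le_add_ker S
    omega
  obtain ⟨_, ⟨y, hy, rfl⟩, hy'⟩ := SetLike.not_le_iff_exists.1 h1
  obtain ⟨φ, h2, h3⟩ := sep U hy'
  refine ⟨σ ∘ φ, y, funext fun i => ?_, hy, ?_⟩
  · have := h3 _ (Submodule.subset_span ⟨i, rfl⟩)
    change S i ⬝ᵥ (σ ∘ φ) = 0
    rw [dotProduct_comm, st_dot σ hσ, this, map_zero]
  · have : σ ∘ σ ∘ φ = φ := funext fun i => hσ _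
    rw [this]
    rw [Matrix.mulVecLin_apply] at h2
    rw [h2]
    exact one_ne_zero

/-- The matrix with two given columns. -/
def cols (x y : I → F) : Matrix I (Fin 2) F := Matrix.of fun i j => ![x, y] j i

lemma mul_cols (S : Matrix ν I F) {x y : I → F} (hx : S *ᵥ x = 0) (hy : S *ᵥ y = 0) :
    S * cols x y = 0 := by
  ext i j
  fin_cases j
  · exact congrFun hx i
  · exact congrFun hy i

lemma det_cols (C : Matrix I I F) (x y : I → F) :
    (adj σ (cols x y) * C * cols x y).det =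
      ((σ ∘ x) ⬝ᵥ C *ᵥ x) * ((σ ∘ y) ⬝ᵥ C *ᵥ y) - ((σ ∘ x) ⬝ᵥ C *ᵥ y) * ((σ ∘ y) ⬝ᵥ C *ᵥ x) := by
  rw [Matrix.det_fin_two, Matrix.mul_assoc]
  rfl

lemma plane_or_aniso (hσ : ∀ a, σ (σ a) = a) [Fintype ν] (S : Matrix ν I F) (C : Matrix I I F)
    {ρ : ℕ} (hC : finrank F (LinearMap.ker C.mulVecLin) ≤ ρ)
    (h : 2 * Fintype.card ν + ρ < Fintype.card I) :
    (∃ E : Matrix I (Fin 2) F, S * E = 0 ∧ (adj σ E * C * E).det ≠ 0) ∨
      ∃ p : I → F, S *ᵥ p = 0 ∧ (σ ∘ p) ⬝ᵥ C *ᵥ p ≠ 0 := by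
  obtain ⟨x, y, hx, hy, hxy⟩ := exists_pair σ hσ S C hC h
  by_contra hcon
  push Not at hcon
  have h1 := hcon.2 x hx
  have h2 := hcon.2 y hy
  have h3 := hcon.2 (x + y) (by rw [Matrix.mulVec_add, hx, hy, add_zero])
  have h4 := hcon.1 _ (mul_cols S hx hy)
  have h5 : σ ∘ (x + y) = σ ∘ x + σ ∘ y := by funext i; simp
  rw [h5, Matrix.mulVec_add, add_dotProduct, dotProduct_add, dotProduct_add, h1, h2] at h3
  rw [det_cols, h1, h2] at h4
  have h6 : ((σ ∘ x) ⬝ᵥ C *ᵥ y) ^ 2 = 0 := by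
    linear_combination h4 + ((σ ∘ x) ⬝ᵥ C *ᵥ y) * h3
  exact hxy (pow_eq_zero_iff two_ne_zero |>.1 h6)

lemma exists_plane (hσ : ∀ a, σ (σ a) = a) [Fintype ν] (S : Matrix ν I F) (C : Matrix I I F)
    {ρ : ℕ} (hC : finrank F (LinearMap.ker C.mulVecLin) ≤ ρ)
    (h : 2 * (Fintype.card ν + 1) + ρ < Fintype.card I) :
    ∃ E : Matrix I (Fin 2) F, S * E = 0 ∧ (adj σ E * C * E).det ≠ 0 := by
  rcases plane_or_aniso σ hσ S C hC (by omega) with h1 | ⟨p, hp, hp'⟩
  · exact h1
  let S' : Matrix (Option ν) I F := Matrix.of fun o => o.elim ((σ ∘ p) ᵥ* C) S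
  rcases plane_or_aniso σ hσ S' C hC (by simpa using h) with ⟨E, hE, hE'⟩ | ⟨u, hu, hu'⟩
  · exact ⟨E, by ext i j; exact congrFun (congrFun hE (some i)) j, hE'⟩
  · have h1 : S *ᵥ u = 0 := funext fun i => congrFun hu (some i)
    have h2 : (σ ∘ p) ⬝ᵥ C *ᵥ u = 0 := by
      rw [Matrix.dotProduct_mulVec]; exact congrFun hu none
    refine ⟨cols p u, mul_cols S hp h1, ?_⟩
    rw [det_cols, h2, zero_mul, sub_zero]
    exact mul_ne_zero hp' hu'

lemma exists_poly (C : Matrix I I F) (E D : Matrix I (Fin 2) F) :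
    ∃ P : Polynomial F, P.natDegree ≤ 4 ∧ ∀ t, σ t = t →
      P.eval t = (adj σ (E + t • D) * C * (E + t • D)).det := by
  let g : Fin 2 → Fin 2 → Polynomial F := fun i j =>
    Polynomial.C ((adj σ E * C * E) i j) +
      Polynomial.C ((adj σ D * C * E + adj σ E * C * D) i j) * Polynomial.X +
      Polynomial.C ((adj σ D * C * D) i j) * Polynomial.X ^ 2
  have hg : ∀ i j, (g i j).natDegree ≤ 2 := fun i j => by
    simp only [g]; compute_degree
  refine ⟨g 0 0 * g 1 1 - g 0 1 * g 1 0, ?_, fun t ht => ?_⟩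
  · refine (Polynomial.natDegree_sub_le _ _).trans (max_le ?_ ?_) <;>
      exact Polynomial.natDegree_mul_le.trans (add_le_add (hg _ _) (hg _ _))
  · have : ∀ i j, (g i j).eval t = (adj σ (E + t • D) * C * (E + t • D)) i j := fun i j => by
      simp only [g, adj_add, adj_smul σ ht, Matrix.add_mul, Matrix.mul_add, Matrix.smul_mul,
        Matrix.mul_smul, Matrix.add_apply, Matrix.smul_apply, smul_eq_mul, Polynomial.eval_add,
        Polynomial.eval_mul, Polynomial.eval_C, Polynomial.eval_X, Polynomial.eval_pow]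
      ring
    rw [Matrix.det_fin_two, Polynomial.eval_sub, Polynomial.eval_mul, Polynomial.eval_mul, this,
      this, this, this]

lemma exists_plane_all [Finite F] [Fintype ι] (S : Matrix ν I F) (C : ι → Matrix I I F)
    (hq : 4 * Fintype.card ι < Nat.card {a // σ a = a})
    (h : ∀ a, ∃ E : Matrix I (Fin 2) F, S * E = 0 ∧ (adj σ E * C a * E).det ≠ 0) :
    ∃ E : Matrix I (Fin 2) F, S * E = 0 ∧ ∀ a, (adj σ E * C a * E).det ≠ 0 := by
  classical
  have := Fintype.ofFinite F
  suffices key : ∀ T : Finset ι, ∃ E : Matrix I (Fin 2) F, S * E = 0 ∧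
      ∀ a ∈ T, (adj σ E * C a * E).det ≠ 0 by
    obtain ⟨E, hE, hE'⟩ := key Finset.univ
    exact ⟨E, hE, fun a => hE' a (Finset.mem_univ _)⟩
  intro T
  induction T using Finset.induction_on with
  | empty => exact ⟨0, by simp, by simp⟩
  | insert a T ha ih =>
    obtain ⟨E, hE, hE'⟩ := ih
    obtain ⟨D, hD, hD'⟩ := h a
    choose P hP hP' using fun b => exists_poly σ (C b) E (D - E)
    have hne : ∏ b ∈ insert a T, P b ≠ 0 := by
      refine Finset.prod_ne_zero_iff.2 fun b hb h0 => ?_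
      rcases Finset.mem_insert.1 hb with rfl | hb
      · have := hP' b 1 (map_one σ)
        rw [h0, Polynomial.eval_zero, one_smul, add_sub_cancel] at this
        exact hD' this.symm
      · have := hP' b 0 (map_zero σ)
        rw [h0, Polynomial.eval_zero, zero_smul, add_zero] at this
        exact hE' b hb this.symm
    have hdeg : (∏ b ∈ insert a T, P b).natDegree < (Finset.univ.filter fun t => σ t = t).card := by
      refine (Polynomial.natDegree_prod_le _ _).trans_lt ?_
      have h1 := Finset.sum_le_card_nsmul (insert a T) _ 4 fun b _ => hP b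
      have h2 := Finset.card_le_univ (insert a T)
      rw [Nat.card_eq_fintype_card, Fintype.card_subtype] at hq
      rw [smul_eq_mul] at h1
      omega
    by_contra hcon
    refine hne (Polynomial.eq_zero_of_natDegree_lt_card_of_eval_eq_zero' _ _ (fun t ht => ?_) hdeg)
    have ht' : σ t = t := (Finset.mem_filter.1 ht).2
    by_contra h0
    rw [Polynomial.eval_prod] at h0
    refine hcon ⟨E + t • (D - E), ?_, fun b hb => ?_⟩
    · rw [Matrix.mul_add, Matrix.mul_smul, Matrix.mul_sub, hE, hD]; simp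
    · rw [← hP' b t ht']
      exact Finset.prod_ne_zero_iff.1 h0 b hb

theorem greedy2 (hσ : ∀ a, σ (σ a) = a) [Finite F] [Fintype ι] (C : ι → Matrix I I F)
    (hq : 4 * Fintype.card ι < Nat.card {a // σ a = a}) {ρ : ℕ}
    (hC : ∀ a, finrank F (LinearMap.ker (C a).mulVecLin) ≤ ρ) (s : ℕ)
    (hs : ∀ r < s, 2 * (4 * (Fintype.card ι * r) + 1) + ρ < Fintype.card I) :
    ∃ E : Fin s → Matrix I (Fin 2) F, ∀ a k, (adj σ (E k) * C a * E k).det ≠ 0 ∧
      ∀ l, k ≠ l → adj σ (E k) * C a * E l = 0 := by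
  induction s with
  | zero => exact ⟨fun _ => 0, fun _ k => k.elim0⟩
  | succ r ih =>
    obtain ⟨E, hE⟩ := ih fun r' hr' => hs r' (by omega)
    let S : Matrix (Bool × Fin 2 × ι × Fin r) I F := Matrix.of fun x =>
      (adj σ (E x.2.2.2) * (if x.1 then C x.2.2.1 else adj σ (C x.2.2.1))) x.2.1
    obtain ⟨D, hD, hD'⟩ := exists_plane_all σ S C hq fun a => exists_plane σ hσ S (C a) (hC a) (by
      have := hs r (by omega)
      simp only [Fintype.card_prod, Fintype.card_bool, Fintype.card_fin]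
      omega)
    have h1 : ∀ a k, adj σ (E k) * C a * D = 0 := fun a k => by
      ext i j; exact congrFun (congrFun hD (true, i, a, k)) j
    have h2 : ∀ a k, adj σ D * C a * E k = 0 := fun a k => by
      have h3 : adj σ (E k) * adj σ (C a) * D = 0 := by
        ext i j; exact congrFun (congrFun hD (false, i, a, k)) j
      have h4 := congrArg (adj σ) h3
      rwa [adj_mul, adj_mul, adj_adj σ hσ, adj_adj σ hσ, adj_zero, ← Matrix.mul_assoc] at h4
    refine ⟨Fin.cons D E, fun a k => ?_⟩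
    refine Fin.cases ⟨hD' a, fun l => ?_⟩ (fun k => ⟨(hE a k).1, fun l => ?_⟩) k
    · exact Fin.cases (fun h => (h rfl).elim) (fun l _ => h2 a l) l
    · exact Fin.cases (fun _ => h1 a k) (fun l h => (hE a k).2 l fun h' => h (congrArg _ h')) l

lemma card_le_fixed_sq [Finite F] (hσ : ∀ a, σ (σ a) = a) :
    Nat.card F ≤ Nat.card {a // σ a = a} ^ 2 := by
  by_cases h : ∀ b, σ b = b
  · have h1 : Nat.card F ≤ Nat.card {a // σ a = a} :=
      Nat.card_le_card_of_injective (fun a => ⟨a, h a⟩) fun a b hab => congrArg Subtype.val hab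
    exact h1.trans (Nat.le_self_pow two_ne_zero _)
  · push Not at h
    obtain ⟨b, hb⟩ := h
    rw [sq, ← Nat.card_prod]
    refine Nat.card_le_card_of_injective (fun a => (⟨a + σ a, by rw [map_add, hσ, add_comm]⟩,
      ⟨b * a + σ (b * a), by rw [map_add, hσ, add_comm]⟩)) fun a a' haa => ?_
    simp only [Prod.mk.injEq, Subtype.mk.injEq, map_mul] at haa
    have h1 : (σ b - b) * (a - a') = 0 := by linear_combination σ b * haa.1 - haa.2
    exact sub_eq_zero.1 ((mul_eq_zero.1 h1).resolve_left (sub_ne_zero.2 hb))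

end LieGirth
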