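import Pool.Agent.P.MP_d589a8_al.Lie.CLead

/-! The exposure bound for `A + η A^*`. -/

namespace LieGirth

open Finset Matrix Module

variable {F κ I β : Type} [Field F] [Fintype κ] [DecidableEq κ] [Fintype I] [DecidableEq I]
  [Fintype β] [DecidableEq β] (σ : F →+* F) (η : F)

lemma pr_mem2 [Fintype F] {V : Type} [AddCommGroup V] [Module F V] [Fintype V]
    (f : V →ₗ[F] (I → F)) (H : Submodule F (I → F)) {a e : ℕ} (ha : finrank F H ≤ a)
    (he : Fintype.card I ≤ finrank F (LinearMap.range f) + e) (c : I → F) {s : F} (hs : s ≠ 0) :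
    pr (fun v : V => c + s • f v ∈ H) ≤
      (Nat.card F : ℝ) ^ (a + e) / (Nat.card F : ℝ) ^ Fintype.card I := by
  classical
  have h1 := pr_addHom f.rangeRestrict.toAddMonoidHom (LinearMap.surjective_rangeRestrict f)
    (fun b => c + s • b.1 ∈ H)
  refine (le_of_eq h1).trans ?_
  have h2 : Nat.card {b : LinearMap.range f // c + s • b.1 ∈ H} ≤ Nat.card H :=
    Nat.card_le_card_of_injective (fun b => ⟨_, b.2⟩) fun b b' h => Subtype.ext (Subtype.ext
      (smul_right_injective _ hs (add_left_cancel (congrArg Subtype.val h))))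
  have h3 : Nat.card H = Nat.card F ^ finrank F H := Module.natCard_eq_pow_finrank
  have h4 : Nat.card (LinearMap.range f) = Nat.card F ^ finrank F (LinearMap.range f) :=
    Module.natCard_eq_pow_finrank
  have hq : 0 < Nat.card F := Nat.card_pos
  have h5 : Nat.card {b : LinearMap.range f // c + s • b.1 ∈ H} * Nat.card F ^ Fintype.card I ≤
      Nat.card F ^ (a + e) * Nat.card (LinearMap.range f) := by
    rw [h4, ← pow_add]
    refine (Nat.mul_le_mul_right _ (h2.trans h3.le)).trans ?_
    rw [← pow_add]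
    exact Nat.pow_le_pow_right hq (by omega)
  rw [pr_eq, div_le_div_iff₀ (by exact_mod_cast Nat.card_pos) (by positivity)]
  exact_mod_cast h5

lemma exists_proj (hσ : ∀ a, σ (σ a) = a) (H : Submodule F (I → F)) :
    ∃ π : (I → F) →ₗ[F] (I → F), (∀ t, ∀ h ∈ H, (σ ∘ π t) ⬝ᵥ h = 0) ∧
      Fintype.card I ≤ finrank F (LinearMap.range π) + finrank F H := by
  let b := Module.finBasis F H
  let S : Matrix (Fin (finrank F H)) I F := Matrix.of fun i => σ ∘ (b i).1
  let U := LinearMap.ker S.mulVecLin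
  obtain ⟨g, hg⟩ := LinearMap.exists_leftInverse_of_injective U.subtype (Submodule.ker_subtype U)
  refine ⟨U.subtype.comp g, fun t h hh => ?_, ?_⟩
  · have h1 : ∀ i, (σ ∘ (g t).1) ⬝ᵥ (b i).1 = 0 := fun i => by
      have h2 : (σ ∘ (b i).1) ⬝ᵥ (g t).1 = 0 := congrFun (LinearMap.mem_ker.1 (g t).2) i
      rw [st_dot σ hσ, dotProduct_comm, h2, map_zero]
    have h2 : h = ∑ i, b.repr ⟨h, hh⟩ i • (b i).1 := by
      have := congrArg Subtype.val (b.sum_repr ⟨h, hh⟩)
      rw [Submodule.coe_sum] at this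
      exact this.symm
    rw [h2, dotProduct_sum]
    exact Finset.sum_eq_zero fun i _ => by
      rw [dotProduct_smul]
      exact smul_eq_zero_of_right _ (h1 i)
  · have h1 : U ≤ LinearMap.range (U.subtype.comp g) := fun u hu =>
      ⟨u, congrArg Subtype.val (LinearMap.congr_fun hg ⟨u, hu⟩)⟩
    have h2 := Submodule.finrank_mono h1
    have h3 := card_le_add_ker S
    rw [Fintype.card_fin] at h3
    exact h3.trans (by rw [add_comm]; exact Nat.add_le_add_right h2 _)

lemma nn_vmv (a φ u : I → F) : nn σ η (vecMulVec a φ) *ᵥ u =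
    (φ ⬝ᵥ u) • a + η • ((σ ∘ a) ⬝ᵥ u) • (σ ∘ φ) := by
  have : adj σ (vecMulVec a φ) = vecMulVec (σ ∘ φ) (σ ∘ a) := by
    ext i j; simp [adj, vecMulVec_apply, mul_comm]
  rw [nn, this, Matrix.add_mulVec, Matrix.smul_mulVec, vmv, vmv]

/-- The sample point seen by the word. -/
def nu (ω : (β → Matrix I I F) × (I → F)) : (β → Matrix I I F) × (I → F) :=
  (fun i => nn σ η (ω.1 i), ω.2)

namespace Dat

variable (S : Dat F κ I I β) (z : β × Bool)

theorem exp_aux2 [Fintype F] (hσ : ∀ a, σ (σ a) = a) {ρ : ℕ} (hS : S.Good2 ρ)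
    (L : List (β × Bool)) (y : β × Bool)
    (hy : L.headD z ≠ y) (hL : List.IsChain (fun x y => y ≠ bar x) (L ++ [z])) :
    pr (fun ω => S.qry z (nu σ η ω) y L ∈ S.H z (nu σ η ω) L) ≤
      (L.length + 1) * (Nat.card F : ℝ) ^ (2 * L.length + ρ) /
        (Nat.card F : ℝ) ^ Fintype.card I := by
  have hq : (1 : ℝ) ≤ Nat.card F := by exact_mod_cast Nat.card_pos
  choose π hπ hπ' using exists_proj (I := I) σ hσ
  induction L generalizing y with
  | nil =>
    refine pr_prod_le _ (by positivity) fun N => ?_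
    have := pr_mem2 (S.C y z).mulVecLin ⊥ (a := 0) (e := ρ) (by simp) (by
      have h1 := LinearMap.finrank_range_add_finrank_ker (S.C y z).mulVecLin
      have h2 := hS y z (Ne.symm hy)
      rw [Module.finrank_fintype_fun_eq_card] at h1
      omega) 0 one_ne_zero
    simpa [qry, tr, W, H, C, nu, Matrix.mul_assoc] using this
  | cons x L ih =>
    have h1 := ih (bar x) (chain_head hL) (List.IsChain.tail hL)
    let ph : (β → Matrix I I F) × (I → F) → I → F := fun ω =>
      fn (S.H z (nu σ η ω) L) (S.qry z (nu σ η ω) (bar x) L)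
    let pj : (β → Matrix I I F) × (I → F) → (I → F) →ₗ[F] (I → F) := fun ω =>
      π (S.H z (nu σ η ω) (x :: L))
    let τ : (I → F) → (β → Matrix I I F) × (I → F) → (β → Matrix I I F) × (I → F) :=
      fun a ω => (ω.1 + fun _ => vecMulVec (pj ω a) (ph ω), ω.2)
    have hact : ∀ a ω i, ∀ u ∈ S.H z (nu σ η ω) (x :: L), (nu σ η (τ a ω)).1 i *ᵥ u =
        (nu σ η ω).1 i *ᵥ u + (ph ω ⬝ᵥ u) • pj ω a := fun a ω i u hu => by
      simp only [τ, nu, Pi.add_apply, nn_add, Matrix.add_mulVec, nn_vmv]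
      rw [hπ _ a u hu, zero_smul, smul_zero, add_zero]
    have hτ : ∀ a ω, S.tr z (nu σ η (τ a ω)) L = S.tr z (nu σ η ω) L ∧
        S.H z (nu σ η (τ a ω)) L = S.H z (nu σ η ω) L := fun a ω =>
      S.inv z (nu σ η ω) (nu σ η (τ a ω)) rfl L fun i u hu => by
        rw [hact a ω i u (Submodule.mem_sup_left hu), fn_zero _ _ u hu, zero_smul, add_zero]
    have hq' : ∀ a ω, S.qry z (nu σ η (τ a ω)) (bar x) L = S.qry z (nu σ η ω) (bar x) L :=
      fun a ω => by unfold qry; rw [(hτ a ω).1]
    have hH : ∀ a ω, S.H z (nu σ η (τ a ω)) (x :: L) = S.H z (nu σ η ω) (x :: L) := fun a ω => by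
      simp only [H, hq', (hτ a ω).2]
    have hph : ∀ a ω, ph (τ a ω) = ph ω ∧ pj (τ a ω) = pj ω := fun a ω => by
      simp only [ph, pj, hq', (hτ a ω).2, hH, and_self]
    have h2 : pr (fun ω => S.qry z (nu σ η ω) (bar x) L ∉ S.H z (nu σ η ω) L ∧
        S.qry z (nu σ η ω) y (x :: L) ∈ S.H z (nu σ η ω) (x :: L)) ≤
        (Nat.card F : ℝ) ^ ((L.length + 1) + ((L.length + 1) + ρ)) /
          (Nat.card F : ℝ) ^ Fintype.card I := by
      refine pr_act τ (fun a ω ω' h => ?_) _ (by positivity) fun ω => ?_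
      · have h3 : ph ω = ph ω' := by rw [← (hph a ω).1, h, (hph a ω').1]
        have h4 : pj ω = pj ω' := by rw [← (hph a ω).2, h, (hph a ω').2]
        simp only [τ, h3, h4, Prod.mk.injEq, add_left_inj] at h
        exact Prod.ext h.1 h.2
      · by_cases hb : S.qry z (nu σ η ω) (bar x) L ∈ S.H z (nu σ η ω) L
        · rw [pr_false fun a ha => ha.1 (by rw [hq', (hτ a ω).2]; exact hb)]
          positivity
        · have hd := S.finrank_H z (nu σ η ω) (x :: L)
          refine le_trans (pr_mono fun a ha => ?_) (pr_mem2 ((S.C y x).mulVecLin.comp (pj ω))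
            (S.H z (nu σ η ω) (x :: L)) hd ?_ (S.qry z (nu σ η ω) y (x :: L)) (sg_ne x))
          · have h4 : S.qry z (nu σ η (τ a ω)) y (x :: L) =
                S.qry z (nu σ η ω) y (x :: L) + sg F x • S.C y x *ᵥ pj ω a := by
              have h5 := hact a ω x.1 _
                (Submodule.mem_sup_right (Submodule.mem_span_singleton_self _))
              rw [fn_one hb, one_smul] at h5
              rw [qry, qry, tr_cons, tr_cons, hq', (hτ a ω).1, h5, C,
                ← Matrix.mulVec_mulVec (pj ω a)]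
              simp only [Matrix.mulVec_add, Matrix.mulVec_smul, smul_add, add_assoc]
            rw [← hH a ω]
            exact h4 ▸ ha.2
          · have h3 := finrank_le_map_add_ker (S.C y x).mulVecLin (LinearMap.range (pj ω))
            have h4 := hS y x (Ne.symm hy)
            have h5 : _ ≤ finrank F (LinearMap.range (pj ω)) + _ := hπ' (S.H z (nu σ η ω) (x :: L))
            rw [LinearMap.range_comp]
            rw [List.length_cons] at hd
            omega
    have h3 := pr_mono
      (p := fun ω => S.qry z (nu σ η ω) y (x :: L) ∈ S.H z (nu σ η ω) (x :: L))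
      (q := fun ω => S.qry z (nu σ η ω) (bar x) L ∈ S.H z (nu σ η ω) L ∨
        (S.qry z (nu σ η ω) (bar x) L ∉ S.H z (nu σ η ω) L ∧
        S.qry z (nu σ η ω) y (x :: L) ∈ S.H z (nu σ η ω) (x :: L))) fun ω hω => by tauto
    refine h3.trans ((pr_or _ _).trans ((add_le_add h1 h2).trans ?_))
    rw [← add_div, List.length_cons,
      show L.length + 1 + (L.length + 1 + ρ) = 2 * (L.length + 1) + ρ by ring]
    have h4 : (Nat.card F : ℝ) ^ (2 * L.length + ρ) ≤ (Nat.card F : ℝ) ^ (2 * (L.length + 1) + ρ) :=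
      pow_le_pow_right₀ hq (by omega)
    have h5 : (0 : ℝ) ≤ L.length + 1 := by positivity
    push_cast
    gcongr
    nlinarith

theorem exp_bound2 [Fintype F] (hσ : ∀ a, σ (σ a) = a) {ρ : ℕ} (hS : S.Good2 ρ)
    (L : List (β × Bool)) (hz : L.headD z ≠ z)
    (hL : List.IsChain (fun x y => y ≠ bar x) (L ++ [z])) :
    pr (fun A : β → Matrix I I F => S.Ev z L fun i => nn σ η (A i)) ≤
      (L.length + 1) * (Nat.card F : ℝ) ^ (2 * L.length + ρ) /
        (Nat.card F : ℝ) ^ Fintype.card I := by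
  rw [← pr_fst (β := I → F)]
  refine le_trans (pr_mono fun ω hω => ?_) (S.exp_aux2 σ η z hσ hS L z hz hL)
  have : S.qry z (nu σ η ω) z L = 0 := by
    rw [qry, tr, Matrix.mulVec_mulVec, Matrix.mulVec_mulVec, nu, show _ = _ from hω,
      Matrix.zero_mulVec]
  rw [this]
  exact zero_mem _

end Dat

end LieGirth
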