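import Pool.Agent.P.MP_d589a8_al.Lie.Exp

/-! Random elements of `SL` written as `d₊ u(N) d₋⁻¹`; the union bound. -/

namespace LieGirth

open Finset Matrix Module

variable {F κ I J β : Type} [Field F] [Fintype κ] [DecidableEq κ] [Fintype I] [DecidableEq I]
  [Fintype J] [DecidableEq J] [Fintype β] [DecidableEq β]

/-- The unipotent element `1 + P N Q`. -/
def uu (P : Matrix κ I F) (Q : Matrix J κ F) (h : Q * P = 0) (N : Matrix I J F) :
    Matrix.SpecialLinearGroup κ F :=
  ⟨1 + P * N * Q, by rw [Matrix.det_one_add_mul_comm, ← Matrix.mul_assoc, h]; simp⟩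

lemma uu_inv (P : Matrix κ I F) (Q : Matrix J κ F) (h : Q * P = 0) (N : Matrix I J F) :
    (uu P Q h N)⁻¹ = uu P Q h (-N) := by
  refine inv_eq_of_mul_eq_one_right (Subtype.ext ?_)
  have : P * N * Q * (P * N * Q) = 0 := by
    rw [Matrix.mul_assoc, Matrix.mul_assoc P N Q, ← Matrix.mul_assoc Q, h]; simp
  simp only [uu, Matrix.SpecialLinearGroup.coe_mul, Matrix.SpecialLinearGroup.coe_one, Matrix.mul_neg,
    Matrix.neg_mul, mul_add, add_mul, mul_neg, this, one_mul, mul_one]
  abel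

/-- Complementary block matrices. -/
structure Blk (F κ I J : Type) [Field F] [Fintype κ] [DecidableEq κ] [Fintype I] [DecidableEq I]
    [Fintype J] [DecidableEq J] where
  P : Matrix κ I F
  Q : Matrix J κ F
  P' : Matrix κ J F
  Q' : Matrix I κ F
  h1 : Q * P = 0
  h2 : Q' * P' = 0
  h3 : Q' * P = 1
  h4 : Q * P' = 1
  h5 : P * Q' + P' * Q = 1

lemma exists_blk (e : κ ≃ I ⊕ J) : Nonempty (Blk F κ I J) :=
  ⟨{ P := (fromRows 1 0).submatrix e id
     Q := (fromCols 0 1).submatrix id e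
     P' := (fromRows 0 1).submatrix e id
     Q' := (fromCols 1 0).submatrix id e
     h1 := by rw [submatrix_mul_equiv, fromCols_mul_fromRows]; simp
     h2 := by rw [submatrix_mul_equiv, fromCols_mul_fromRows]; simp
     h3 := by rw [submatrix_mul_equiv, fromCols_mul_fromRows]; simp
     h4 := by rw [submatrix_mul_equiv, fromCols_mul_fromRows]; simp
     h5 := by
      rw [← submatrix_mul _ _ _ _ _ Function.bijective_id,
        ← submatrix_mul _ _ _ _ _ Function.bijective_id, fromRows_mul_fromCols,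
        fromRows_mul_fromCols]
      ext a b
      simp only [Matrix.add_apply, submatrix_apply, Matrix.one_apply, ← e.injective.eq_iff]
      rcases e a with a | a <;> rcases e b with b | b <;> simp [Matrix.one_apply] }⟩

namespace Blk

variable (B : Blk F κ I J)

/-- The data attached to a family of elements of `SL`. -/
def dat (d : β × Bool → Matrix.SpecialLinearGroup κ F) : Dat F κ I J β :=
  ⟨B.P, B.Q, fun x => d x, fun x => ((d x)⁻¹ : Matrix.SpecialLinearGroup κ F)⟩

/-- The generators. -/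
def gen (d : β × Bool → Matrix.SpecialLinearGroup κ F) (N : β → Matrix I J F) (i : β) :
    Matrix.SpecialLinearGroup κ F :=
  d (i, true) * uu B.P B.Q B.h1 (N i) * (d (i, false))⁻¹

lemma W_eq (d : β × Bool → Matrix.SpecialLinearGroup κ F) (N : β → Matrix I J F)
    (L : List (β × Bool)) :
    ((FreeGroup.lift (B.gen d N) (FreeGroup.mk L) : Matrix.SpecialLinearGroup κ F) : Matrix κ κ F) =
      (B.dat d).W N L := by
  rw [FreeGroup.lift_mk, Dat.W]
  induction L with
  | nil => simp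
  | cons x L ih =>
    rw [List.map_cons, List.prod_cons, List.map_cons, List.prod_cons, Matrix.SpecialLinearGroup.coe_mul,
      ih]
    congr 1
    obtain ⟨i, b⟩ := x
    cases b
    · simp only [cond_false, gen, _root_.mul_inv_rev, inv_inv, uu_inv, Matrix.SpecialLinearGroup.coe_mul]
      simp [Dat.lm, dat, uu, sg, bar, Matrix.mul_assoc]
    · simp only [cond_true, gen, Matrix.SpecialLinearGroup.coe_mul]
      simp [Dat.lm, dat, uu, sg, bar, Matrix.mul_assoc]

lemma ev_of_center (d : β × Bool → Matrix.SpecialLinearGroup κ F) (N : β → Matrix I J F)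
    (L : List (β × Bool)) (z : β × Bool)
    (h : FreeGroup.lift (B.gen d N) (FreeGroup.mk L) ∈ Subgroup.center (Matrix.SpecialLinearGroup κ F)) :
    (B.dat d).Ev z L N := by
  obtain ⟨r, -, hr⟩ := Matrix.SpecialLinearGroup.mem_center_iff.1 h
  have h1 : (((d z)⁻¹ : Matrix.SpecialLinearGroup κ F) : Matrix κ κ F) * d z = 1 := by
    rw [← Matrix.SpecialLinearGroup.coe_mul, inv_mul_cancel, Matrix.SpecialLinearGroup.coe_one]
  have h2 : scalar κ r = r • (1 : Matrix κ κ F) := by
    rw [scalar_apply, smul_one_eq_diagonal]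
  rw [Dat.Ev, ← W_eq, ← hr, h2]
  simp only [dat, Matrix.mul_smul, Matrix.smul_mul, Matrix.mul_one]
  rw [Matrix.mul_assoc B.Q, ← Matrix.mul_assoc _ _ B.P, h1, Matrix.one_mul, B.h1, smul_zero]

variable [Fintype F] [DecidableEq F]

lemma pr_gen (p : (β → Matrix.SpecialLinearGroup κ F) → Prop) :
    pr (fun ω : (β × Bool → Matrix.SpecialLinearGroup κ F) × (β → Matrix I J F) => p (B.gen ω.1 ω.2)) =
      pr p := by
  rw [← pr_fst (β := (β → Matrix.SpecialLinearGroup κ F) × (β → Matrix I J F)) p]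
  refine pr_bij (fun ω : (β × Bool → Matrix.SpecialLinearGroup κ F) × (β → Matrix I J F) =>
    (B.gen ω.1 ω.2, (fun i => ω.1 (i, false), ω.2))) ?_ (fun x => p x.1)
  refine Function.bijective_iff_has_inverse.2 ⟨fun x => (fun y => if y.2 then
    x.1 y.1 * x.2.1 y.1 * (uu B.P B.Q B.h1 (x.2.2 y.1))⁻¹ else x.2.1 y.1, x.2.2), ?_, ?_⟩
  · rintro ⟨d, N⟩
    refine Prod.ext (funext fun ⟨i, b⟩ => ?_) rfl
    cases b <;> simp [gen]
  · rintro ⟨g, h, N⟩
    refine Prod.ext (funext fun i => ?_) rfl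
    simp [gen]

lemma pr_row (x y : β × Bool) (φ : J → F) :
    pr (fun d : β × Bool → Matrix.SpecialLinearGroup κ F =>
      x ≠ y ∧ φ ≠ 0 ∧ φ ᵥ* (B.dat d).C x y = 0) ≤ 1 / (Nat.card F : ℝ) ^ Fintype.card I := by
  refine pr_act (fun (N : Matrix J I F) d => d * Pi.mulSingle y (uu B.P' B.Q' B.h2 N))
    (fun N => mul_left_injective _) _ (by positivity) fun d => ?_
  by_cases hxy : x = y
  · rw [pr_false fun N h => h.1 hxy]; positivity
  by_cases hφ : φ = 0
  · rw [pr_false fun N h => h.2.1 hφ]; positivity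
  let r : κ → F := φ ᵥ* (B.Q * (((d x)⁻¹ * d y : Matrix.SpecialLinearGroup κ F) : Matrix κ κ F))
  have hr : r ≠ 0 := fun h => hφ (by
    have h1 : r ᵥ* ((((d y)⁻¹ * d x : Matrix.SpecialLinearGroup κ F) : Matrix κ κ F) * B.P') = φ := by
      simp only [r, Matrix.vecMul_vecMul]
      rw [Matrix.mul_assoc, ← Matrix.mul_assoc _ _ B.P', ← Matrix.SpecialLinearGroup.coe_mul]
      simp [B.h4]
    rw [← h1, h, Matrix.zero_vecMul])
  have hC : ∀ N, φ ᵥ* (B.dat (d * Pi.mulSingle y (uu B.P' B.Q' B.h2 N))).C x y =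
      r ᵥ* B.P + (r ᵥ* B.P') ᵥ* N := by
    intro N
    simp only [Dat.C, dat, Pi.mul_apply, Pi.mulSingle_eq_of_ne hxy, Pi.mulSingle_eq_same, mul_one,
      r, Matrix.vecMul_vecMul, ← Matrix.vecMul_add, Matrix.SpecialLinearGroup.coe_mul, uu,
      Matrix.mul_add, Matrix.add_mul, Matrix.mul_assoc, B.h3, Matrix.mul_one, Matrix.one_mul]
  simp only [hC]
  by_cases hb : r ᵥ* B.P' = 0
  · rw [pr_false fun N h => hr ?_]
    · positivity
    have h1 : r ᵥ* B.P = 0 := by simpa [hb] using h.2.2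
    rw [← Matrix.vecMul_one r, ← B.h5, Matrix.vecMul_add, ← Matrix.vecMul_vecMul,
      ← Matrix.vecMul_vecMul, h1, hb]
    simp
  · obtain ⟨c, hc, -⟩ := sep (⊥ : Submodule F (J → F)) (u := r ᵥ* B.P') (by simpa using hb)
    have h1 := pr_addHom (AddMonoidHom.mk' (fun N : Matrix J I F => (r ᵥ* B.P') ᵥ* N)
      (fun N N' => Matrix.vecMul_add _ _ _)) (fun u => ⟨vecMulVec c u, by
        simp only [AddMonoidHom.mk'_apply]
        rw [Matrix.vecMul_vecMulVec, dotProduct_comm, hc, one_smul]⟩)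
      (fun u => r ᵥ* B.P + u = 0)
    refine (pr_mono fun N h => h.2.2).trans ((le_of_eq h1).trans ?_)
    rw [pr_eq, Nat.card_fun, Nat.card_eq_fintype_card (α := I)]
    have h2 : Nat.card {u // r ᵥ* B.P + u = 0} ≤ 1 :=
      Finite.card_le_one_iff_subsingleton.2
        ⟨fun a b => Subtype.ext (add_left_cancel (a.2.trans b.2.symm))⟩
    push_cast
    gcongr
    exact_mod_cast h2

lemma pr_good :
    pr (fun d : β × Bool → Matrix.SpecialLinearGroup κ F => ¬ (B.dat d).Good) ≤
      ((2 * Fintype.card β) ^ 2 : ℕ) *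
        ((Nat.card F : ℝ) ^ Fintype.card J / (Nat.card F : ℝ) ^ Fintype.card I) := by
  have h := pr_exists (Finset.univ : Finset (((β × Bool) × (β × Bool)) × (J → F)))
    (fun a (d : β × Bool → Matrix.SpecialLinearGroup κ F) =>
      a.1.1 ≠ a.1.2 ∧ a.2 ≠ 0 ∧ a.2 ᵥ* (B.dat d).C a.1.1 a.1.2 = 0)
    (fun a _ => B.pr_row a.1.1 a.1.2 a.2)
  refine (pr_mono fun d hd => ?_).trans (h.trans (le_of_eq ?_))
  · simp only [Dat.Good, not_forall] at hd
    obtain ⟨x, y, hxy, φ, h1, h2⟩ := hd
    exact ⟨((x, y), φ), Finset.mem_univ _, hxy, h2, h1⟩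
  · simp only [Finset.card_univ, Fintype.card_prod, Fintype.card_bool, Fintype.card_fun,
      Nat.card_eq_fintype_card]
    push_cast
    ring

end Blk

/-- The lists of length at most `B`. -/
def lists (X : Type) [Fintype X] [DecidableEq X] : ℕ → Finset (List X)
  | 0 => {[]}
  | B + 1 => insert [] (Finset.image₂ List.cons Finset.univ (lists X B))

lemma card_lists (X : Type) [Fintype X] [DecidableEq X] (B : ℕ) :
    (lists X B).card ≤ (Fintype.card X + 1) ^ B := by
  induction B with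
  | zero => simp [lists]
  | succ B ih =>
    have h1 := Finset.card_insert_le [] (Finset.image₂ List.cons Finset.univ (lists X B))
    have h2 := Finset.card_image₂_le List.cons (Finset.univ : Finset X) (lists X B)
    have h3 : 1 ≤ (Fintype.card X + 1) ^ B := Nat.one_le_pow _ _ (by omega)
    have h4 := Nat.mul_le_mul_left (Fintype.card X) ih
    rw [Finset.card_univ] at h2
    rw [lists, pow_succ]
    nlinarith

lemma mem_lists {X : Type} [Fintype X] [DecidableEq X] (B : ℕ) (L : List X) (h : L.length ≤ B) :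
    L ∈ lists X B := by
  induction B generalizing L with
  | zero => simp [lists, List.length_eq_zero_iff.1 (Nat.le_zero.1 h)]
  | succ B ih =>
    cases L with
    | nil => simp [lists]
    | cons x L =>
      rw [lists]
      exact Finset.mem_insert_of_mem (Finset.mem_image₂_of_mem (Finset.mem_univ _)
        (ih L (by simpa using h)))

lemma exists_marker (hβ : 2 ≤ Fintype.card β) (L : List (β × Bool)) (h0 : L ≠ [])
    (hL : FreeGroup.IsReduced L) :
    ∃ z, L.headD z ≠ z ∧ List.IsChain (fun x y => y ≠ bar x) (L ++ [z]) := by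
  obtain ⟨z, -, hz⟩ := Finset.exists_mem_notMem_of_card_lt_card
    (s := {L.head h0, bar (L.getLast h0)}) (t := Finset.univ) (by
      refine (Finset.card_le_two).trans_lt ?_
      simp only [Finset.card_univ, Fintype.card_prod, Fintype.card_bool]; omega)
  simp only [Finset.mem_insert, Finset.mem_singleton, not_or] at hz
  refine ⟨z, ?_, List.isChain_append.2 ⟨List.IsChain.imp ?_ hL, by simp, ?_⟩⟩
  · cases L with
    | nil => exact (h0 rfl).elim
    | cons x L => exact Ne.symm hz.1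
  · rintro ⟨i, b⟩ y h rfl
    simpa [bar] using h
  · intro x hx y hy
    rw [List.getLast?_eq_some_getLast h0] at hx
    simp only [Option.mem_def, Option.some.injEq, List.head?_cons] at hx hy
    rw [← hx, ← hy]
    exact hz.2

theorem Blk.union [Fintype F] [DecidableEq F] (B : Blk F κ I J) (hβ : 2 ≤ Fintype.card β)
    (ℓ : ℕ) {δ : ℝ} (hδ : 0 ≤ δ)
    (h : ∀ S : Dat F κ I J β, S.Good → ∀ z L, L.length ≤ ℓ → L.headD z ≠ z →
      List.IsChain (fun x y => y ≠ bar x) (L ++ [z]) → pr (S.Ev z L) ≤ δ) :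
    pr (fun g : β → Matrix.SpecialLinearGroup κ F => ∃ w : FreeGroup β, w ≠ 1 ∧ w.norm ≤ ℓ ∧
      FreeGroup.lift g w ∈ Subgroup.center (Matrix.SpecialLinearGroup κ F)) ≤
      ((2 * Fintype.card β) ^ 2 : ℕ) *
        ((Nat.card F : ℝ) ^ Fintype.card J / (Nat.card F : ℝ) ^ Fintype.card I) +
      (2 * Fintype.card β + 1) ^ ℓ * δ := by
  rw [← B.pr_gen]
  have h1 := B.pr_good (β := β)
  rw [← pr_fst (β := β → Matrix I J F)] at h1
  have h2 : pr (fun ω : (β × Bool → Matrix.SpecialLinearGroup κ F) × (β → Matrix I J F) =>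
      ∃ L ∈ lists (β × Bool) ℓ, (B.dat ω.1).Good ∧ L.length ≤ ℓ ∧ L ≠ [] ∧ FreeGroup.IsReduced L ∧
        ∀ z, (B.dat ω.1).Ev z L ω.2) ≤ (2 * Fintype.card β + 1) ^ ℓ * δ := by
    refine (pr_exists _ _ (δ := δ) fun L _ => pr_prod_le _ hδ fun d => ?_).trans ?_
    · by_cases hh : (B.dat d).Good ∧ L.length ≤ ℓ ∧ L ≠ [] ∧ FreeGroup.IsReduced L
      · obtain ⟨z, hz, hz'⟩ := exists_marker hβ L hh.2.2.1 hh.2.2.2
        exact (pr_mono fun N hN => hN.2.2.2.2 z).trans (h _ hh.1 z L hh.2.1 hz hz')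
      · rw [pr_false fun N hN => hh ⟨hN.1, hN.2.1, hN.2.2.1, hN.2.2.2.1⟩]; exact hδ
    · have h3 := card_lists (β × Bool) ℓ
      rw [Fintype.card_prod, Fintype.card_bool, mul_comm] at h3
      gcongr
      exact_mod_cast h3
  refine (pr_mono fun ω hω => ?_).trans ((pr_or _ _).trans (add_le_add h1 h2))
  by_cases hg : (B.dat ω.1).Good
  · obtain ⟨w, hw, hn, hc⟩ := hω
    refine Or.inr ⟨w.toWord, mem_lists _ _ hn, hg, hn, by simpa using hw,
      FreeGroup.isReduced_toWord, fun z => B.ev_of_center _ _ _ z ?_⟩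
    rwa [FreeGroup.mk_toWord]
  · exact Or.inl hg

end LieGirth
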