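import Pool.Agent.P.MP_d589a8_al.Lie.CExp
import Pool.Agent.P.MP_d589a8_al.Lie.Good

/-! Groups containing two opposite abelian unipotent subgroups; the union bound. -/

namespace LieGirth

open Finset Matrix Module

lemma pr_markov {α β : Type*} [Fintype α] [Fintype β] (p : α × β → Prop) (bad : α → Prop) {θ : ℝ}
    (h : ∀ a, bad a → θ ≤ pr fun b => p (a, b)) : pr bad * θ ≤ pr p := by
  classical
  rw [pr_prod_eq, pr, Finset.expect_mul]
  refine Finset.expect_le_expect fun a _ => ?_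
  by_cases ha : bad a
  · simpa [ha] using h a ha
  · simpa [ha] using pr_nonneg _

lemma pr_prod_le' {α β : Type*} [Fintype α] [Fintype β] (p : α × β → Prop) {δ : ℝ} (hδ : 0 ≤ δ)
    (h : ∀ b, pr (fun a => p (a, b)) ≤ δ) : pr p ≤ δ := by
  rw [← pr_bij Prod.swap Prod.swap_bijective p]
  exact pr_prod_le _ hδ h

variable {F κ I β Γ : Type} [Field F] [Fintype κ] [DecidableEq κ] [Fintype I] [DecidableEq I]
  [Fintype β] [DecidableEq β] [Group Γ] {σ : F →+* F} {η : F}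

lemma rho_inv (ρ : Γ →* Matrix κ κ F) {P : Matrix κ I F} {Q : Matrix I κ F} (h : Q * P = 0)
    {g : Γ} {N : Matrix I I F} (hg : ρ g = 1 + P * N * Q) : ρ g⁻¹ = 1 + P * (-N) * Q := by
  have h1 : ρ g⁻¹ * ρ g = 1 := by rw [← map_mul, inv_mul_cancel, map_one]
  have h2 : ρ g * (1 + P * (-N) * Q) = 1 := by
    have : P * N * Q * (P * N * Q) = 0 := by
      rw [Matrix.mul_assoc, Matrix.mul_assoc P N Q, ← Matrix.mul_assoc Q, h]; simp
    simp only [hg, Matrix.mul_neg, Matrix.neg_mul, mul_add, add_mul, mul_neg, this, one_mul,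
      mul_one]
    abel
  exact left_inv_eq_right_inv h1 h2

/-- A matrix representation whose image contains two opposite unipotent groups. -/
structure Rep (κ I Γ : Type) {F : Type} [Field F] [Fintype κ] [DecidableEq κ] [Fintype I]
    [DecidableEq I] [Group Γ] (σ : F →+* F) (η : F) where
  ρ : Γ →* Matrix κ κ F
  P : Matrix κ I F
  Q : Matrix I κ F
  P' : Matrix κ I F
  Q' : Matrix I κ F
  h1 : Q * P = 0
  h2 : Q' * P' = 0
  h3 : Q' * P = 1
  h4 : Q * P' = 1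
  U : Matrix I I F → Γ
  U' : Matrix I I F → Γ
  hU : ∀ A, ρ (U A) = 1 + P * nn σ η A * Q
  hU' : ∀ A, ρ (U' A) = 1 + P' * nn σ η A * Q'
  hK : Nat.card {v : κ → F // Q *ᵥ v = 0 ∧ Q' *ᵥ v = 0} ≤ Nat.card F ^ 2

namespace Rep

variable (B : Rep κ I Γ σ η)

/-- The data attached to a family of group elements. -/
def dat (d : β × Bool → Γ) : Dat F κ I I β :=
  ⟨B.P, B.Q, fun x => B.ρ (d x), fun x => B.ρ (d x)⁻¹⟩

/-- The generators. -/
def gen (d : β × Bool → Γ) (A : β → Matrix I I F) (i : β) : Γ :=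
  d (i, true) * B.U (A i) * (d (i, false))⁻¹

lemma W_eq (d : β × Bool → Γ) (A : β → Matrix I I F) (L : List (β × Bool)) :
    B.ρ (FreeGroup.lift (B.gen d A) (FreeGroup.mk L)) =
      (B.dat d).W (fun i => nn σ η (A i)) L := by
  rw [FreeGroup.lift_mk, Dat.W]
  induction L with
  | nil => simp
  | cons x L ih =>
    rw [List.map_cons, List.prod_cons, List.map_cons, List.prod_cons, map_mul, ih]
    congr 1
    obtain ⟨i, b⟩ := x
    cases b
    · simp only [cond_false, gen, _root_.mul_inv_rev, inv_inv, map_mul,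
        rho_inv B.ρ B.h1 (B.hU _)]
      simp [Dat.lm, dat, sg, bar, Matrix.mul_assoc]
    · simp only [cond_true, gen, map_mul, B.hU]
      simp [Dat.lm, dat, sg, bar, Matrix.mul_assoc]

lemma ev_of_scalar (d : β × Bool → Γ) (A : β → Matrix I I F) (L : List (β × Bool)) (z : β × Bool)
    (h : B.ρ (FreeGroup.lift (B.gen d A) (FreeGroup.mk L)) ∈ Set.range (scalar κ)) :
    (B.dat d).Ev z L fun i => nn σ η (A i) := by
  obtain ⟨r, hr⟩ := h
  have h1 : B.ρ (d z)⁻¹ * B.ρ (d z) = 1 := by rw [← map_mul, inv_mul_cancel, map_one]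
  have h2 : scalar κ r = r • (1 : Matrix κ κ F) := by
    rw [scalar_apply, smul_one_eq_diagonal]
  rw [Dat.Ev, ← W_eq, ← hr, h2]
  simp only [dat, Matrix.mul_smul, Matrix.smul_mul, Matrix.mul_one]
  rw [Matrix.mul_assoc B.Q, ← Matrix.mul_assoc _ _ B.P, h1, Matrix.one_mul, B.h1, smul_zero]

variable [Fintype F] [DecidableEq F] [Fintype Γ]

lemma pr_gen (p : (β → Γ) → Prop) :
    pr (fun ω : (β × Bool → Γ) × (β → Matrix I I F) => p (B.gen ω.1 ω.2)) = pr p := by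
  rw [← pr_fst (β := (β → Γ) × (β → Matrix I I F)) p]
  refine pr_bij (fun ω : (β × Bool → Γ) × (β → Matrix I I F) =>
    (B.gen ω.1 ω.2, (fun i => ω.1 (i, false), ω.2))) ?_ (fun x => p x.1)
  refine Function.bijective_iff_has_inverse.2 ⟨fun x => (fun y => if y.2 then
    x.1 y.1 * x.2.1 y.1 * (B.U (x.2.2 y.1))⁻¹ else x.2.1 y.1, x.2.2), ?_, ?_⟩
  · rintro ⟨d, N⟩
    refine Prod.ext (funext fun ⟨i, b⟩ => ?_) rfl
    cases b <;> simp [gen]
  · rintro ⟨g, h, N⟩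
    refine Prod.ext (funext fun i => ?_) rfl
    simp [gen]

omit [Fintype κ] [DecidableEq κ] [Fintype β] [DecidableEq β] [Group Γ] [Fintype Γ] in
lemma pr_nn (hσ : ∀ a, σ (σ a) = a) (c : I → F) {b : I → F} (hb : b ≠ 0) :
    pr (fun A : Matrix I I F => c - nn σ η A *ᵥ b = 0) ≤
      (Nat.card F : ℝ) / (Nat.card F : ℝ) ^ Fintype.card I := by
  obtain ⟨φ, hφ, -⟩ := sep (⊥ : Submodule F (I → F)) (u := b) (by simpa using hb)
  obtain ⟨π, hπ, hπ'⟩ := exists_proj σ hσ (Submodule.span F {b})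
  have h1 : finrank F (Submodule.span F {b}) ≤ 1 := by
    simpa using finrank_span_le_card (R := F) ({b} : Set (I → F))
  refine pr_act (fun (t : I → F) (A : Matrix I I F) => A + vecMulVec (π t) φ)
    (fun t => add_left_injective _) _ (by positivity) fun A => ?_
  have h2 := pr_mem2 π ⊥ (a := 0) (e := 1) (by simp) (by omega) (c - nn σ η A *ᵥ b)
    (s := -1) (by simp)
  rw [zero_add, pow_one] at h2
  refine (pr_mono fun t ht => ?_).trans h2
  rw [nn_add, Matrix.add_mulVec, nn_vmv, hφ, hπ t b (Submodule.mem_span_singleton_self b)] at ht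
  rw [Submodule.mem_bot, ← ht]
  simp only [neg_smul, one_smul, zero_smul, smul_zero, add_zero]
  abel

lemma pr_col (hσ : ∀ a, σ (σ a) = a) {x y : β × Bool} (hxy : x ≠ y) (p : I → F) :
    pr (fun d : β × Bool → Γ => B.Q *ᵥ ((B.ρ ((d x)⁻¹ * d y) * B.P) *ᵥ p) = 0 ∧
      B.Q' *ᵥ ((B.ρ ((d x)⁻¹ * d y) * B.P) *ᵥ p) ≠ 0) ≤
      (Nat.card F : ℝ) / (Nat.card F : ℝ) ^ Fintype.card I := by
  refine pr_act (fun (A : Matrix I I F) d => d * Pi.mulSingle x (B.U' A))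
    (fun A => mul_left_injective _) _ (by positivity) fun d => ?_
  set v := (B.ρ ((d x)⁻¹ * d y) * B.P) *ᵥ p with hv
  have h1 : ∀ A, (B.ρ (((d * Pi.mulSingle x (B.U' A) : β × Bool → Γ) x)⁻¹ *
      (d * Pi.mulSingle x (B.U' A) : β × Bool → Γ) y) * B.P) *ᵥ p =
      v - B.P' *ᵥ (nn σ η A *ᵥ (B.Q' *ᵥ v)) := fun A => by
    simp only [Pi.mul_apply, Pi.mulSingle_eq_of_ne hxy.symm, Pi.mulSingle_eq_same, mul_one,
      _root_.mul_inv_rev, mul_assoc]
    rw [map_mul, rho_inv B.ρ B.h2 (B.hU' A), Matrix.mul_assoc, ← Matrix.mulVec_mulVec, ← hv]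
    simp only [Matrix.add_mulVec, Matrix.one_mulVec, Matrix.mul_neg, Matrix.neg_mul,
      Matrix.neg_mulVec, Matrix.mulVec_mulVec, Matrix.mul_assoc, sub_eq_add_neg]
  have h2 : ∀ u, B.Q *ᵥ (B.P' *ᵥ u) = u := fun u => by
    rw [Matrix.mulVec_mulVec, B.h4, Matrix.one_mulVec]
  have h3 : ∀ u, B.Q' *ᵥ (B.P' *ᵥ u) = 0 := fun u => by
    rw [Matrix.mulVec_mulVec, B.h2, Matrix.zero_mulVec]
  simp only [h1, Matrix.mulVec_sub, h2, h3, sub_zero]
  by_cases hb : B.Q' *ᵥ v = 0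
  · rw [pr_false fun A h => h.2 hb]; positivity
  · exact (pr_mono fun A h => h.1).trans (pr_nn hσ _ hb)

lemma pr_pair (hσ : ∀ a, σ (σ a) = a) {j : ℕ} (hj : 2 ≤ j) (x y : β × Bool) :
    pr (fun d : β × Bool → Γ =>
      x ≠ y ∧ j < finrank F (LinearMap.ker ((B.dat d).C x y).mulVecLin)) ≤
      2 / (Nat.card F : ℝ) ^ j := by
  by_cases hxy : x = y
  · rw [pr_false fun d h => h.1 hxy]; positivity
  have hq2 : 2 ≤ Nat.card F := Finite.one_lt_card
  have hq : (0 : ℝ) < Nat.card F := by positivity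
  have h1 := pr_prod_le' (fun ω : (β × Bool → Γ) × (I → F) =>
    B.Q *ᵥ ((B.ρ ((ω.1 x)⁻¹ * ω.1 y) * B.P) *ᵥ ω.2) = 0 ∧
      B.Q' *ᵥ ((B.ρ ((ω.1 x)⁻¹ * ω.1 y) * B.P) *ᵥ ω.2) ≠ 0) (by positivity)
    (B.pr_col hσ hxy)
  have h2 := pr_markov (fun ω : (β × Bool → Γ) × (I → F) =>
    B.Q *ᵥ ((B.ρ ((ω.1 x)⁻¹ * ω.1 y) * B.P) *ᵥ ω.2) = 0 ∧
      B.Q' *ᵥ ((B.ρ ((ω.1 x)⁻¹ * ω.1 y) * B.P) *ᵥ ω.2) ≠ 0)
    (fun d => x ≠ y ∧ j < finrank F (LinearMap.ker ((B.dat d).C x y).mulVecLin))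
    (θ := (Nat.card F : ℝ) ^ (j + 1) / 2 / (Nat.card F : ℝ) ^ Fintype.card I) fun d hd => by
      set g := B.ρ ((d x)⁻¹ * d y) * B.P with hg
      have hC : ∀ p, (B.dat d).C x y *ᵥ p = B.Q *ᵥ (g *ᵥ p) := fun p => by
        simp only [Dat.C, dat, hg, map_mul, Matrix.mulVec_mulVec, Matrix.mul_assoc]
      have h3 : (Nat.card F : ℝ) ^ (j + 1) / (Nat.card F : ℝ) ^ Fintype.card I ≤
          pr fun p => p ∈ LinearMap.ker ((B.dat d).C x y).mulVecLin := by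
        rw [pr_eq, Nat.card_fun, Nat.card_eq_fintype_card (α := I)]
        have h4 : Nat.card (LinearMap.ker ((B.dat d).C x y).mulVecLin) = Nat.card F ^ _ :=
          Module.natCard_eq_pow_finrank
        have h5 : Nat.card F ^ (j + 1) ≤ Nat.card (LinearMap.ker ((B.dat d).C x y).mulVecLin) :=
          h4 ▸ Nat.pow_le_pow_right (by omega) hd.2
        push_cast
        gcongr
        exact_mod_cast h5
      have h4 : (pr fun p => B.Q *ᵥ (g *ᵥ p) = 0 ∧ B.Q' *ᵥ (g *ᵥ p) = 0) ≤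
          (Nat.card F : ℝ) ^ (j + 1) / 2 / (Nat.card F : ℝ) ^ Fintype.card I := by
        rw [pr_eq, Nat.card_fun, Nat.card_eq_fintype_card (α := I)]
        have h5 : ∀ p, (B.Q' * B.ρ ((d y)⁻¹ * d x)) *ᵥ (g *ᵥ p) = p := fun p => by
          rw [Matrix.mulVec_mulVec, hg, Matrix.mul_assoc, ← Matrix.mul_assoc _ _ B.P, ← map_mul]
          simp [B.h3]
        have h6 : Nat.card {p // B.Q *ᵥ (g *ᵥ p) = 0 ∧ B.Q' *ᵥ (g *ᵥ p) = 0} ≤ Nat.card F ^ 2 :=
          le_trans (Nat.card_le_card_of_injective (fun p => ⟨g *ᵥ p.1, p.2⟩) fun p p' h =>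
            Subtype.ext (by
              rw [← h5 p.1, ← h5 p'.1, show g *ᵥ p.1 = g *ᵥ p'.1 from congrArg Subtype.val h])) B.hK
        have h7 : Nat.card F ^ 2 * 2 ≤ Nat.card F ^ (j + 1) := by
          rw [pow_succ _ j]
          exact Nat.mul_le_mul (Nat.pow_le_pow_right (by omega) hj) hq2
        push_cast
        gcongr
        rw [le_div_iff₀ (by norm_num)]
        exact_mod_cast (Nat.mul_le_mul_right 2 h6).trans h7
      have h5 := (pr_mono (p := fun p => p ∈ LinearMap.ker ((B.dat d).C x y).mulVecLin)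
        fun p hp => by
          have hp' : B.Q *ᵥ (g *ᵥ p) = 0 := (hC p).symm.trans hp
          by_cases h : B.Q' *ᵥ (g *ᵥ p) = 0
          · exact Or.inl ⟨hp', h⟩
          · exact Or.inr ⟨hp', h⟩).trans
        (pr_or (fun p => B.Q *ᵥ (g *ᵥ p) = 0 ∧ B.Q' *ᵥ (g *ᵥ p) = 0)
          (fun p => B.Q *ᵥ (g *ᵥ p) = 0 ∧ B.Q' *ᵥ (g *ᵥ p) ≠ 0))
      have h6 : (Nat.card F : ℝ) ^ (j + 1) / (Nat.card F : ℝ) ^ Fintype.card I =
          2 * ((Nat.card F : ℝ) ^ (j + 1) / 2 / (Nat.card F : ℝ) ^ Fintype.card I) := by ring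
      linarith
  have h3 := h2.trans h1
  rw [← le_div_iff₀ (by positivity)] at h3
  refine h3.trans (le_of_eq ?_)
  rw [pow_succ]
  field_simp

lemma pr_good (hσ : ∀ a, σ (σ a) = a) {j : ℕ} (hj : 2 ≤ j) :
    pr (fun d : β × Bool → Γ => ¬ (B.dat d).Good2 j) ≤
      ((2 * Fintype.card β) ^ 2 : ℕ) * (2 / (Nat.card F : ℝ) ^ j) := by
  have h := pr_exists (Finset.univ : Finset ((β × Bool) × (β × Bool)))
    (fun a (d : β × Bool → Γ) =>
      a.1 ≠ a.2 ∧ j < finrank F (LinearMap.ker ((B.dat d).C a.1 a.2).mulVecLin))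
    (fun a _ => B.pr_pair hσ hj a.1 a.2)
  refine (pr_mono fun d hd => ?_).trans (h.trans (le_of_eq ?_))
  · simp only [Dat.Good2, not_forall, not_le] at hd
    obtain ⟨x, y, hxy, h1⟩ := hd
    exact ⟨(x, y), Finset.mem_univ _, hxy, h1⟩
  · simp only [Finset.card_univ, Fintype.card_prod, Fintype.card_bool]
    push_cast
    ring

theorem union (hσ : ∀ a, σ (σ a) = a) (hβ : 2 ≤ Fintype.card β) {j : ℕ} (hj : 2 ≤ j)
    (ℓ : ℕ) {δ : ℝ} (hδ : 0 ≤ δ)
    (h : ∀ S : Dat F κ I I β, S.Good2 j → ∀ z L, L.length ≤ ℓ → L.headD z ≠ z →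
      List.IsChain (fun x y => y ≠ bar x) (L ++ [z]) →
      pr (fun A : β → Matrix I I F => S.Ev z L fun i => nn σ η (A i)) ≤ δ) :
    pr (fun g : β → Γ => ∃ w : FreeGroup β, w ≠ 1 ∧ w.norm ≤ ℓ ∧
      B.ρ (FreeGroup.lift g w) ∈ Set.range (scalar κ)) ≤
      ((2 * Fintype.card β) ^ 2 : ℕ) * (2 / (Nat.card F : ℝ) ^ j) +
      (2 * Fintype.card β + 1) ^ ℓ * δ := by
  rw [← B.pr_gen]
  have h1 := B.pr_good (β := β) hσ hj
  rw [← pr_fst (β := β → Matrix I I F)] at h1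
  have h2 : pr (fun ω : (β × Bool → Γ) × (β → Matrix I I F) =>
      ∃ L ∈ lists (β × Bool) ℓ, (B.dat ω.1).Good2 j ∧ L.length ≤ ℓ ∧ L ≠ [] ∧
        FreeGroup.IsReduced L ∧ ∀ z, (B.dat ω.1).Ev z L fun i => nn σ η (ω.2 i)) ≤
      (2 * Fintype.card β + 1) ^ ℓ * δ := by
    refine (pr_exists _ _ (δ := δ) fun L _ => pr_prod_le _ hδ fun d => ?_).trans ?_
    · by_cases hh : (B.dat d).Good2 j ∧ L.length ≤ ℓ ∧ L ≠ [] ∧ FreeGroup.IsReduced L
      · obtain ⟨z, hz, hz'⟩ := exists_marker hβ L hh.2.2.1 hh.2.2.2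
        exact (pr_mono fun N hN => hN.2.2.2.2 z).trans (h _ hh.1 z L hh.2.1 hz hz')
      · rw [pr_false fun N hN => hh ⟨hN.1, hN.2.1, hN.2.2.1, hN.2.2.2.1⟩]; exact hδ
    · have h3 := card_lists (β × Bool) ℓ
      rw [Fintype.card_prod, Fintype.card_bool, mul_comm] at h3
      gcongr
      exact_mod_cast h3
  refine (pr_mono fun ω hω => ?_).trans ((pr_or _ _).trans (add_le_add h1 h2))
  by_cases hg : (B.dat ω.1).Good2 j
  · obtain ⟨w, hw, hn, hc⟩ := hω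
    refine Or.inr ⟨w.toWord, mem_lists _ _ hn, hg, hn, by simpa using hw,
      FreeGroup.isReduced_toWord, fun z => B.ev_of_scalar _ _ _ z ?_⟩
    rwa [FreeGroup.mk_toWord]
  · exact Or.inl hg

end Rep

end LieGirth
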