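import Pool.Agent.P.MP_d589a8_al.Lie.CBase

/-! The algebraic bound along rank-two directions. -/

namespace LieGirth

open Finset Matrix Module

section

variable {F σ κ X : Type} [Field F] [Fintype σ] [DecidableEq σ] [Fintype κ] [DecidableEq κ]

theorem lead2 (A0 : X → Matrix κ κ F) (A1 : X → σ → Matrix κ κ F) (e : X → Matrix κ (Fin 2) F)
    (R : X → X → Prop) (k : σ)
    (hA : ∀ x y, R x y → ∃ M : Matrix (Fin 2) (Fin 2) F, M.det ≠ 0 ∧
      ∀ l, A1 x l * e y = if l = k then e x * M else 0)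
    (z : X) (c₀ : Fin 2 → F) (h₀ : c₀ ≠ 0) (L : List X) (hL : List.IsChain R (L ++ [z])) :
    ∃ c : Fin 2 → F, c ≠ 0 ∧
      LoV L.length (fun t => (L.map fun x => A0 x + ∑ l, t l • A1 x l).prod *ᵥ (e z *ᵥ c₀)
        - (1 * t k ^ L.length) • (e (L.headD z) *ᵥ c)) := by
  induction L with
  | nil => exact ⟨c₀, h₀, fun a => by simp; exact zero_mem _⟩
  | cons x L ih =>
    obtain ⟨c, hc, h⟩ := ih (List.IsChain.tail hL)
    obtain ⟨M, hM, hAa⟩ := hA x _ (chain_head hL)
    refine ⟨M *ᵥ c, fun h0 => hc (Matrix.eq_zero_of_mulVec_eq_zero hM h0), ?_⟩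
    have h1 := ((h.mulVec (A0 x)).mono (Nat.le_succ _)).add
      (((LoV.pow k L.length 1 (e (L.headD z) *ᵥ c)).mulVec (A0 x)).add (h.lin (A1 x)))
    convert h1 using 1
    · rfl
    funext t
    have h2 : (∑ l, t l • A1 x l) *ᵥ (e (L.headD z) *ᵥ c) = t k • (e x *ᵥ (M *ᵥ c)) := by
      rw [Matrix.sum_mulVec, Finset.sum_eq_single k]
      · rw [Matrix.smul_mulVec, Matrix.mulVec_mulVec, hAa, if_pos rfl, Matrix.mulVec_mulVec]
      · intro l _ hl
        rw [Matrix.smul_mulVec, Matrix.mulVec_mulVec, hAa, if_neg hl, Matrix.zero_mulVec, smul_zero]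
      · simp
    simp only [List.map_cons, List.prod_cons, List.length_cons, List.headD_cons]
    rw [← Matrix.mulVec_mulVec, Matrix.add_mulVec]
    simp only [Matrix.mulVec_sub, Matrix.mulVec_smul, h2, smul_smul]
    have : 1 * t k ^ L.length * t k = 1 * t k ^ (L.length + 1) := by ring
    rw [this]
    abel

end

variable {F κ I β : Type} [Field F] [Fintype κ] [DecidableEq κ] [Fintype I] [DecidableEq I]
  [Fintype β] [DecidableEq β] (σ : F →+* F) (η : F)

/-- The matrix `A + η A^*`. -/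
def nn (A : Matrix I I F) : Matrix I I F := A + η • adj σ A

lemma nn_add (A B : Matrix I I F) : nn σ η (A + B) = nn σ η A + nn σ η B := by
  simp only [nn, adj_add, smul_add]; abel

lemma nn_sum {s : ℕ} (t : Fin s → F) (ht : ∀ l, σ (t l) = t l) (A : Fin s → Matrix I I F) :
    nn σ η (∑ l, t l • A l) = ∑ l, t l • nn σ η (A l) := by
  ext i j
  simp only [nn, adj, Matrix.add_apply, Matrix.smul_apply, Matrix.transpose_apply,
    Matrix.map_apply, Matrix.sum_apply, smul_eq_mul, map_sum, map_mul, ht, Finset.mul_sum,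
    ← Finset.sum_add_distrib]
  exact Finset.sum_congr rfl fun l _ => by ring

lemma nn_plane (hσ : ∀ a, σ (σ a) = a) (E : Matrix I (Fin 2) F) :
    nn σ η (E * !![(0 : F), 1; 0, 0] * adj σ E) = E * !![0, 1; η, 0] * adj σ E := by
  have h1 : (!![0, 1; η, 0] : Matrix (Fin 2) (Fin 2) F) =
      !![0, 1; 0, 0] + η • adj σ !![0, 1; 0, 0] := by
    ext i j; fin_cases i <;> fin_cases j <;> simp [adj]
  rw [nn, adj_mul, adj_mul, adj_adj σ hσ, h1]
  simp only [Matrix.mul_add, Matrix.add_mul, Matrix.mul_smul, Matrix.smul_mul, Matrix.mul_assoc]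

/-- All connecting blocks between different letters have corank at most `ρ`. -/
def Dat.Good2 (S : Dat F κ I I β) (ρ : ℕ) : Prop :=
  ∀ x y, x ≠ y → finrank F (LinearMap.ker (S.C x y).mulVecLin) ≤ ρ

theorem Dat.zc_bound2 [Fintype F] (hσ : ∀ a, σ (σ a) = a) (hη : η ≠ 0) (S : Dat F κ I I β) {ρ : ℕ}
    (hS : S.Good2 ρ) (M : ℕ) (hM0 : (2 * Fintype.card β) ^ 2 ≤ M)
    (hM : 4 * M < Nat.card {a // σ a = a}) (s : ℕ)
    (hs : ∀ r < s, 2 * (4 * (M * r) + 1) + ρ < Fintype.card I) (z : β × Bool)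
    (L : List (β × Bool)) (hz : L.headD z ≠ z)
    (hL : List.IsChain (fun x y => y ≠ bar x) (L ++ [z])) :
    pr (fun A : β → Matrix I I F => S.Ev z L fun i => nn σ η (A i)) ≤
      ((L.length : ℝ) / Nat.card {a // σ a = a}) ^ s := by
  classical
  let ι := {xy : (β × Bool) × (β × Bool) // xy.1 ≠ xy.2}
  have hι : Fintype.card ι ≤ M := by
    refine (Fintype.card_subtype_le _).trans (le_trans (le_of_eq ?_) hM0)
    simp only [Fintype.card_prod, Fintype.card_bool]; ring
  obtain ⟨E, h⟩ := greedy2 σ hσ (ι := ι) (fun a => S.C a.1.1 a.1.2) (by omega)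
    (fun a => hS _ _ a.2) s (fun r hr => by
      have h1 := Nat.mul_le_mul_right r hι
      have h2 := hs r hr
      omega)
  have : Nonempty {a // σ a = a} := ⟨⟨0, map_zero σ⟩⟩
  let T : Fin s → Matrix I I F := fun l => E l * !![0, 1; η, 0] * adj σ (E l)
  refine pr_act (fun (t : Fin s → {a // σ a = a}) (A : β → Matrix I I F) =>
    A + fun _ => ∑ l, (t l).1 • (E l * !![(0 : F), 1; 0, 0] * adj σ (E l)))
    (fun t => add_left_injective _) _ (by positivity) fun A => ?_
  rw [pr_eq, div_pow, Nat.card_fun, Nat.card_fin]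
  push_cast
  gcongr
  set N : β → Matrix I I F := fun i => nn σ η (A i) with hN
  have key := zero_count (F := F) (σ := Fin s)
    (fun t => S.Ev z L (N + fun _ => ∑ l, t l • T l)) L.length fun k => ?_
  · rw [Fintype.card_fin] at key
    refine Nat.cast_le.2 (le_trans (Nat.card_le_card_of_injective _
      (Subtype.map_injective (f := fun t l => (t l).1) (fun t ht => ?_) fun t t' htt =>
        funext fun l => Subtype.ext (congrFun htt l))) key) |>.trans (by push_cast; rfl)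
    convert ht using 1
    funext i
    simp only [Pi.add_apply, hN, nn_add, nn_sum σ η _ (fun l => (t l).2), nn_plane σ η hσ, T]
  obtain ⟨c, hc, hlo⟩ := lead2 (S.lm N)
    (fun x l => sg F x • (S.D x * S.P * T l * (S.Q * S.Di (bar x))))
    (fun y => S.D y * S.P * E k) (fun x y => y ≠ bar x) k (fun x y hxy => by
      have h0 := h ⟨(bar x, y), hxy.symm⟩
      refine ⟨sg F x • (!![0, 1; η, 0] * (adj σ (E k) * S.C (bar x) y * E k)), ?_, fun l => ?_⟩
      · rw [Matrix.det_smul, Matrix.det_mul]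
        refine mul_ne_zero (pow_ne_zero _ (sg_ne x)) (mul_ne_zero ?_ (h0 k).1)
        simpa [Matrix.det_fin_two] using hη
      have h1 : (sg F x • (S.D x * S.P * T l * (S.Q * S.Di (bar x)))) * (S.D y * S.P * E k) =
          S.D x * S.P * E l *
            (sg F x • (!![0, 1; η, 0] * (adj σ (E l) * S.C (bar x) y * E k))) := by
        simp only [T, Dat.C, Matrix.smul_mul, Matrix.mul_smul, Matrix.mul_assoc]
      rw [h1]
      split_ifs with hl
      · subst hl; rfl
      · rw [(h0 l).2 k hl]; simp) z ![1, 0] (by simp) L hL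
  have h3 : (adj σ (E k) * S.C z (L.headD z) * E k) *ᵥ c ≠ 0 := fun h0 =>
    hc (Matrix.eq_zero_of_mulVec_eq_zero (h ⟨(z, L.headD z), hz.symm⟩ k).1 h0)
  obtain ⟨j, hj⟩ := Function.ne_iff.1 h3
  refine ⟨_, hj, _, hlo.dot ((adj σ (E k) * (S.Q * S.Di z)) j), fun t ht => ?_⟩
  have h1 : (fun x => S.lm N x + ∑ l, t l • (sg F x • (S.D x * S.P * T l *
      (S.Q * S.Di (bar x))))) = S.lm (N + fun _ => ∑ l, t l • T l) := by
    funext x
    simp only [Dat.lm, Pi.add_apply, smul_add, Matrix.mul_add, Matrix.add_mul, Finset.smul_sum,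
      Matrix.mul_sum, Matrix.sum_mul, Matrix.mul_smul, Matrix.smul_mul, Matrix.mul_assoc,
      add_assoc, smul_comm (t _) (sg F x)]
  have h2 : (adj σ (E k) * (S.Q * S.Di z)) *ᵥ (S.W (N + fun _ => ∑ l, t l • T l) L *ᵥ
      ((S.D z * S.P * E k) *ᵥ ![1, 0])) = 0 := by
    rw [Matrix.mulVec_mulVec, Matrix.mulVec_mulVec, Matrix.mul_assoc (adj σ (E k)),
      Matrix.mul_assoc (adj σ (E k)), ← Matrix.mul_assoc _ _ (E k), show _ = _ from ht]
    simp
  simp only [h1]
  unfold Dat.W at h2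
  have h4 : ∀ v, (adj σ (E k) * (S.Q * S.Di z)) j ⬝ᵥ v = ((adj σ (E k) * (S.Q * S.Di z)) *ᵥ v) j :=
    fun v => rfl
  have h5 : (adj σ (E k) * (S.Q * S.Di z)) *ᵥ ((S.D (L.headD z) * S.P * E k) *ᵥ c) =
      (adj σ (E k) * S.C z (L.headD z) * E k) *ᵥ c := by
    simp only [Matrix.mulVec_mulVec, Dat.C, Matrix.mul_assoc]
  rw [h4, Matrix.mulVec_sub, h2, Matrix.mulVec_smul, h5]
  simp only [zero_sub, Pi.neg_apply, Pi.smul_apply, smul_eq_mul]
  ring

end LieGirth
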