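import Pool.Agent.P.MP_d589a8_al.Lie.Good

/-! Transfer to `PSL_n(q)` and the asymptotics. -/

namespace LieGirth

open Finset Matrix

theorem psl_bound (m n : ℕ) (hm : 2 ≤ m) (hn : 3 ≤ n) (F : Type) [Field F] [Finite F] (ℓ : ℕ)
    {δ : ℝ} (hδ : (4 * m ^ 2 < Nat.card F ∧
        ((ℓ : ℝ) / Nat.card F) ^ ((n / 3 - 1) / (2 * (4 * m ^ 2)) + 1) ≤ δ) ∨
      (ℓ + 1) * (Nat.card F : ℝ) ^ ℓ / (Nat.card F : ℝ) ^ (n / 3) ≤ δ) :
    (Nat.card {g : Fin m → Matrix.ProjectiveSpecialLinearGroup (Fin n) F //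
      ∃ w : FreeGroup (Fin m), w ≠ 1 ∧ w.norm ≤ ℓ ∧ FreeGroup.lift g w = 1} : ℝ) ≤
      (4 * m ^ 2 / (Nat.card F : ℝ) ^ (n / 3) + (2 * m + 1) ^ ℓ * δ) *
        (Nat.card (Matrix.ProjectiveSpecialLinearGroup (Fin n) F) : ℝ) ^ m := by
  classical
  have := Fintype.ofFinite F
  have hq : (1 : ℝ) ≤ Nat.card F := by exact_mod_cast Nat.card_pos
  have hδ0 : 0 ≤ δ := by
    rcases hδ with h | h
    · exact le_trans (by positivity) h.2
    · exact le_trans (by positivity) h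
  obtain ⟨B⟩ := exists_blk (F := F) (κ := Fin n) (I := Fin (n - n / 3)) (J := Fin (n / 3))
    ((finCongr (by omega)).trans finSumFinEquiv.symm)
  have h1 := B.union (β := Fin m) (by simpa using hm) ℓ hδ0 fun S hS z L hl hz hL => by
    have hl' : (L.length : ℝ) ≤ ℓ := by exact_mod_cast hl
    rcases hδ with h | h
    · refine (S.zc_bound hS (4 * m ^ 2) (by simp [mul_pow]) h.1
        ((n / 3 - 1) / (2 * (4 * m ^ 2)) + 1) (fun r hr => ?_) z L hz hL).trans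
        (le_trans (by gcongr) h.2)
      have h2 : r ≤ (n / 3 - 1) / (2 * (4 * m ^ 2)) := by omega
      rw [Nat.le_div_iff_mul_le (by positivity)] at h2
      rw [Fintype.card_fin]
      have h3 : 2 * (4 * m ^ 2 * r) = r * (2 * (4 * m ^ 2)) := by ring
      omega
    · refine (S.exp_bound z hS L hz hL).trans (le_trans ?_ h)
      rw [Fintype.card_fin]
      gcongr
  let π := QuotientGroup.mk' (Subgroup.center (Matrix.SpecialLinearGroup (Fin n) F))
  have h2 := pr_hom (MonoidHom.compLeft π (Fin m))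
    (Function.Surjective.comp_left (QuotientGroup.mk'_surjective _))
    (fun g => ∃ w : FreeGroup (Fin m), w ≠ 1 ∧ w.norm ≤ ℓ ∧ FreeGroup.lift g w = 1)
  have h3 : ∀ (g : Fin m → Matrix.SpecialLinearGroup (Fin n) F) (w : FreeGroup (Fin m)),
      FreeGroup.lift (MonoidHom.compLeft π (Fin m) g) w = π (FreeGroup.lift g w) := by
    intro g w
    have : FreeGroup.lift (MonoidHom.compLeft π (Fin m) g) = π.comp (FreeGroup.lift g) := by
      ext i; simp
    rw [this]; rfl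
  simp only [h3, π, QuotientGroup.mk'_apply, QuotientGroup.eq_one_iff] at h2
  rw [h2, pr_eq, Nat.card_fun, Nat.card_fin, div_le_iff₀ (by exact_mod_cast pow_pos Nat.card_pos m)]
    at h1
  refine h1.trans ?_
  simp only [Fintype.card_fin]
  push_cast
  gcongr
  rw [mul_div_assoc', div_le_div_iff₀ (by positivity) (by positivity), mul_assoc, ← pow_add,
    show (2 * (m : ℝ)) ^ 2 = 4 * m ^ 2 by ring]
  exact mul_le_mul_of_nonneg_left (pow_le_pow_right₀ hq (by omega)) (by positivity)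

lemma card_psl_le (n : ℕ) (F : Type) [Field F] [Finite F] :
    Nat.card (Matrix.ProjectiveSpecialLinearGroup (Fin n) F) ≤ Nat.card F ^ (n * n) := by
  have h1 : Nat.card (Matrix.ProjectiveSpecialLinearGroup (Fin n) F) ≤
      Nat.card (Matrix.SpecialLinearGroup (Fin n) F) :=
    Nat.card_le_card_of_surjective _ (QuotientGroup.mk'_surjective _)
  have h2 : Nat.card (Matrix.SpecialLinearGroup (Fin n) F) ≤ Nat.card (Fin n → Fin n → F) :=
    Nat.card_le_card_of_injective (fun g => g.1) Subtype.val_injective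
  rw [Nat.card_fun, Nat.card_fun, Nat.card_fin, ← pow_mul] at h2
  exact h1.trans h2

/-- The numerical estimate for large fields. -/
lemma est_large {m n s ℓ : ℕ} {q c R : ℝ} (hm : 2 ≤ m) (hn : 3 ≤ n) (hc : 0 < c)
    (hc1 : c * (160 * m ^ 2 * (2 * m + 1)) ≤ 1) (hs : n ≤ 40 * m ^ 2 * s) (hx : 2 ≤ q / n)
    (hl : (ℓ : ℝ) ≤ c * n * Real.log (2 + q / n)) (hR : 0 < R)
    (hRs : R ≤ Real.log (2 + q / n) * s) :
    (2 * m + 1 : ℝ) ^ ℓ * ((ℓ : ℝ) / q) ^ s ≤ 2 / R := by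
  set x := q / n with hxd
  set L := Real.log (2 + x) with hL
  have hn0 : (0 : ℝ) < n := by positivity
  have hm0 : (2 : ℝ) ≤ m := by exact_mod_cast hm
  have hq : q = x * n := by rw [hxd]; field_simp
  have hL0 : 0 ≤ L := Real.log_nonneg (by linarith)
  have hE : Real.exp L = 2 + x := Real.exp_log (by linarith)
  have hs' : (n : ℝ) ≤ 40 * m ^ 2 * s := by exact_mod_cast hs
  have hs0 : (0 : ℝ) ≤ s := by positivity
  have h1 : (2 * m + 1 : ℝ) ^ ℓ ≤ Real.exp (L / 4) ^ s := by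
    have h2 : (2 * m + 1 : ℝ) ≤ Real.exp (2 * m + 1) := by
      linarith [Real.add_one_le_exp (2 * m + 1 : ℝ)]
    refine (pow_le_pow_left₀ (by positivity) h2 ℓ).trans ?_
    rw [← Real.exp_nat_mul, ← Real.exp_nat_mul]
    refine Real.exp_le_exp.2 ?_
    calc (ℓ : ℝ) * (2 * m + 1) ≤ c * (40 * m ^ 2 * s) * L * (2 * m + 1) := by
          refine mul_le_mul_of_nonneg_right (hl.trans ?_) (by positivity)
          gcongr
      _ = c * (160 * m ^ 2 * (2 * m + 1)) * (s * (L / 4)) := by ring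
      _ ≤ 1 * (s * (L / 4)) := by gcongr
      _ = _ := one_mul _
  have hc8 : c * 8 ≤ 1 := by
    refine le_trans (mul_le_mul_of_nonneg_left ?_ hc.le) hc1
    nlinarith
  have h2 : (ℓ : ℝ) / q ≤ Real.exp (-(3 * L / 4)) := by
    have h3 : L / 4 ≤ Real.exp (L / 4) := by linarith [Real.add_one_le_exp (L / 4)]
    have h4 : Real.exp (-(3 * L / 4)) * Real.exp L = Real.exp (L / 4) := by
      rw [← Real.exp_add]; congr 1; ring
    have h5 := Real.exp_pos (-(3 * L / 4))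
    rw [div_le_iff₀ (by rw [hq]; positivity), hq]
    refine hl.trans ?_
    have h6 : c * L ≤ Real.exp (-(3 * L / 4)) * x := by
      rw [hE] at h4
      nlinarith
    calc c * n * L = c * L * n := by ring
      _ ≤ Real.exp (-(3 * L / 4)) * x * n := by gcongr
      _ = _ := by ring
  have hq0 : 0 < q := by rw [hq]; positivity
  calc (2 * m + 1 : ℝ) ^ ℓ * ((ℓ : ℝ) / q) ^ s
      ≤ Real.exp (L / 4) ^ s * Real.exp (-(3 * L / 4)) ^ s := by gcongr
    _ = Real.exp (-(L * s / 2)) := by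
      rw [← mul_pow, ← Real.exp_add, ← Real.exp_nat_mul]; congr 1; ring
    _ ≤ 2 / R := by
      rw [Real.exp_neg, ← one_div, div_le_div_iff₀ (Real.exp_pos _) hR]
      linarith [Real.add_one_le_exp (L * s / 2)]

/-- The numerical estimate for small fields. -/
lemma est_small {m j ℓ q : ℕ} {η : ℝ} (hq : 2 ≤ q) (hl : 2 * ((4 * m + 3) * ℓ) ≤ j) (hη : 0 < η)
    (hT : 1 ≤ η ^ 2 * (q : ℝ) ^ j) :
    (2 * m + 1 : ℝ) ^ ℓ * ((ℓ + 1) * (q : ℝ) ^ ℓ / (q : ℝ) ^ j) ≤ η := by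
  have h1 : (2 * m + 1) ^ ℓ * ((ℓ + 1) * q ^ ℓ) ≤ q ^ ((4 * m + 3) * ℓ) := by
    have h2 : ℓ + 1 ≤ 2 ^ ℓ := Nat.lt_two_pow_self
    have h3 : (2 * m + 1) * 2 ≤ q ^ (4 * m + 2) :=
      le_trans (by have := @Nat.lt_two_pow_self (4 * m + 2); omega) (Nat.pow_le_pow_left hq _)
    calc (2 * m + 1) ^ ℓ * ((ℓ + 1) * q ^ ℓ) ≤ (2 * m + 1) ^ ℓ * (2 ^ ℓ * q ^ ℓ) := by gcongr
      _ = ((2 * m + 1) * 2 * q) ^ ℓ := by rw [mul_pow, mul_pow, mul_assoc]
      _ ≤ (q ^ (4 * m + 2) * q) ^ ℓ := by gcongr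
      _ = _ := by rw [← pow_succ, ← pow_mul]
  have h2 : (q ^ ((4 * m + 3) * ℓ)) ^ 2 ≤ q ^ j := by
    rw [← pow_mul]; exact Nat.pow_le_pow_right (by omega) (by omega)
  have hq0 : (0 : ℝ) < (q : ℝ) ^ j := by positivity
  have h3 : ((q : ℝ) ^ ((4 * m + 3) * ℓ)) ^ 2 ≤ (η * (q : ℝ) ^ j) ^ 2 := by
    have h4 : ((q : ℝ) ^ ((4 * m + 3) * ℓ)) ^ 2 ≤ (q : ℝ) ^ j := by exact_mod_cast h2
    nlinarith
  rw [← mul_div_assoc, div_le_iff₀ hq0]
  refine le_trans ?_ (le_of_sq_le_sq h3 (by positivity))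
  exact_mod_cast h1

theorem main (m : ℕ) (hm : 2 ≤ m) : ∃ c : ℝ, 0 < c ∧ ∀ ε : ℝ, 0 < ε → ∃ N : ℕ,
    ∀ (n : ℕ) (F : Type) [Field F] [Finite F], 3 ≤ n →
      N ≤ Nat.card (Matrix.ProjectiveSpecialLinearGroup (Fin n) F) →
      (Nat.card {g : Fin m → Matrix.ProjectiveSpecialLinearGroup (Fin n) F //
        ∃ w : FreeGroup (Fin m), w ≠ 1 ∧
          (w.norm : ℝ) < c * n * Real.log (2 + (Nat.card F : ℝ) / n) ∧
          FreeGroup.lift g w = 1} : ℝ) ≤
      ε * (Nat.card (Matrix.ProjectiveSpecialLinearGroup (Fin n) F) : ℝ) ^ m := by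
  have hm0 : (2 : ℝ) ≤ m := by exact_mod_cast hm
  set K : ℝ := 160 * m ^ 2 * (2 * m + 1) + 10 * (4 * m + 3) * (2 + 4 * m ^ 2) with hK
  have hK0 : 0 < K := by positivity
  refine ⟨1 / K, by positivity, fun ε hε => ?_⟩
  obtain ⟨R, hR⟩ := exists_nat_ge (8 * m ^ 2 / ε + 4 / ε ^ 2 + 4 / ε)
  have hR1 : 8 * m ^ 2 / ε ≤ R :=
    le_trans (by rw [add_assoc]; exact le_add_of_nonneg_right (by positivity)) hR
  have hR2 : 4 / ε ^ 2 ≤ R := le_trans (by
    have : 0 ≤ 8 * (m : ℝ) ^ 2 / ε := by positivity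
    have : 0 ≤ 4 / ε := by positivity
    linarith) hR
  have hR3 : 4 / ε ≤ R := le_trans (le_add_of_nonneg_left (by positivity)) hR
  have hR0 : (0 : ℝ) < R := lt_of_lt_of_le (by positivity) hR3
  have hR0' : 0 < R := by exact_mod_cast hR0
  refine ⟨(40 * m ^ 2 * R * 3 ^ R) ^ (40 * m ^ 2 * R * (40 * m ^ 2 * R)) + 1,
    fun n F _ _ hn hN => ?_⟩
  have hq2 : 2 ≤ Nat.card F := Finite.one_lt_card
  set q := Nat.card F with hqd
  have hm2 : 4 ≤ m ^ 2 := by nlinarith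
  have hbig : 40 * m ^ 2 * R < n ∨ 40 * m ^ 2 * R * 3 ^ R < q := by
    by_contra hcon
    push Not at hcon
    have h1 : _ ≤ q ^ (n * n) := hN.trans (card_psl_le n F)
    have h2 : q ^ (n * n) ≤ (40 * m ^ 2 * R * 3 ^ R) ^ (40 * m ^ 2 * R * (40 * m ^ 2 * R)) :=
      (Nat.pow_le_pow_left hcon.2 _).trans
        (Nat.pow_le_pow_right (by positivity) (Nat.mul_le_mul hcon.1 hcon.1))
    omega
  have hT : R ≤ q ^ (n / 3) := by
    have h0 : 160 * R ≤ 40 * m ^ 2 * R := by nlinarith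
    rcases hbig with h | h
    · have h1 : n / 3 < 2 ^ (n / 3) := Nat.lt_two_pow_self
      have h2 : 2 ^ (n / 3) ≤ q ^ (n / 3) := Nat.pow_le_pow_left hq2 _
      omega
    · have h1 : q ≤ q ^ (n / 3) := Nat.le_self_pow (by omega) _
      have h2 : 40 * m ^ 2 * R ≤ 40 * m ^ 2 * R * 3 ^ R := Nat.le_mul_of_pos_right _ (by positivity)
      omega
  have hT' : (R : ℝ) ≤ (q : ℝ) ^ (n / 3) := by exact_mod_cast hT
  have hn0 : (0 : ℝ) < n := by positivity
  have hx0 : (0 : ℝ) ≤ (q : ℝ) / n := by positivity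
  have hL0 : 0 ≤ Real.log (2 + (q : ℝ) / n) := Real.log_nonneg (by linarith)
  set ℓ := ⌊1 / K * n * Real.log (2 + (q : ℝ) / n)⌋₊ with hℓ
  have hl : (ℓ : ℝ) ≤ 1 / K * n * Real.log (2 + (q : ℝ) / n) := Nat.floor_le (by positivity)
  have hfirst : 4 * (m : ℝ) ^ 2 / (q : ℝ) ^ (n / 3) ≤ ε / 2 := by
    rw [div_le_iff₀ (by positivity)]
    rw [div_le_iff₀ hε] at hR1
    nlinarith
  obtain ⟨δ, hδ, hδ'⟩ : ∃ δ : ℝ, ((4 * m ^ 2 < q ∧
      ((ℓ : ℝ) / q) ^ ((n / 3 - 1) / (2 * (4 * m ^ 2)) + 1) ≤ δ) ∨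
      (ℓ + 1) * (q : ℝ) ^ ℓ / (q : ℝ) ^ (n / 3) ≤ δ) ∧ (2 * m + 1 : ℝ) ^ ℓ * δ ≤ ε / 2 := by
    by_cases hx : 4 * (m : ℝ) ^ 2 ≤ (q : ℝ) / n
    · have hn3 : (3 : ℝ) ≤ n := by exact_mod_cast hn
      have hx2 : 2 ≤ (q : ℝ) / n := by nlinarith
      have hs : n ≤ 40 * m ^ 2 * ((n / 3 - 1) / (2 * (4 * m ^ 2)) + 1) := by
        have h1 := Nat.lt_mul_div_succ (n / 3 - 1) (b := 2 * (4 * m ^ 2)) (by positivity)
        have h2 : 40 * m ^ 2 * ((n / 3 - 1) / (2 * (4 * m ^ 2)) + 1) =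
            5 * (2 * (4 * m ^ 2) * ((n / 3 - 1) / (2 * (4 * m ^ 2)) + 1)) := by ring
        omega
      refine ⟨_, Or.inl ⟨?_, le_rfl⟩, (est_large hm hn (by positivity) ?_ hs hx2 hl hR0 ?_).trans ?_⟩
      · rw [le_div_iff₀ hn0] at hx
        have : 4 * (m : ℝ) ^ 2 < q := by nlinarith
        exact_mod_cast this
      · rw [one_div_mul_eq_div, div_le_one hK0]
        exact le_add_of_nonneg_right (by positivity)
      · have h3 : 1 ≤ Real.log 3 := by
          rw [Real.le_log_iff_exp_le (by norm_num)]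
          linarith [Real.exp_one_lt_d9]
        set s := (n / 3 - 1) / (2 * (4 * m ^ 2)) + 1 with hsd
        by_cases hn1 : 40 * m ^ 2 * R < n
        · have h1 : R ≤ s := (Nat.lt_of_mul_lt_mul_left (hn1.trans_le hs)).le
          have h2 : (R : ℝ) ≤ s := by exact_mod_cast h1
          have h4 : Real.log 3 ≤ Real.log (2 + (q : ℝ) / n) :=
            Real.log_le_log (by norm_num) (by linarith)
          nlinarith
        · have h1 : n * 3 ^ R ≤ q :=
            (Nat.mul_le_mul_right _ (not_lt.1 hn1)).trans (hbig.resolve_left hn1).le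
          have h2 : (3 : ℝ) ^ R ≤ (q : ℝ) / n := by
            rw [le_div_iff₀ hn0, mul_comm]; exact_mod_cast h1
          have h4 : Real.log (3 ^ R) ≤ Real.log (2 + (q : ℝ) / n) :=
            Real.log_le_log (by positivity) (by linarith)
          rw [Real.log_pow] at h4
          have h5 : (1 : ℝ) ≤ s := by exact_mod_cast Nat.le_add_left 1 _
          nlinarith
      · rw [div_le_iff₀ hε] at hR3
        rw [div_le_div_iff₀ hR0 (by norm_num)]
        linarith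
    · refine ⟨_, Or.inr le_rfl, est_small hq2 ?_ (by positivity) ?_⟩
      · have h1 : Real.log (2 + (q : ℝ) / n) ≤ 2 + 4 * m ^ 2 := by
          linarith [Real.log_le_sub_one_of_pos (show 0 < 2 + (q : ℝ) / n by positivity)]
        have h2 : (n : ℝ) ≤ 5 * (n / 3 : ℕ) := by exact_mod_cast (by omega : n ≤ 5 * (n / 3))
        have h3 : 10 * (4 * m + 3) * (2 + 4 * m ^ 2) / K ≤ 1 := by
          rw [div_le_one hK0]; exact le_add_of_nonneg_left (by positivity)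
        have h4 : 2 * ((4 * m + 3) * (ℓ : ℝ)) ≤ (n / 3 : ℕ) :=
          calc 2 * ((4 * m + 3) * (ℓ : ℝ))
              ≤ 2 * ((4 * m + 3) * (1 / K * (5 * (n / 3 : ℕ)) * (2 + 4 * m ^ 2))) := by
                gcongr; refine hl.trans ?_; gcongr
            _ = 10 * (4 * m + 3) * (2 + 4 * m ^ 2) / K * (n / 3 : ℕ) := by ring
            _ ≤ 1 * (n / 3 : ℕ) := by gcongr
            _ = _ := one_mul _
        exact_mod_cast h4
      · rw [div_le_iff₀ (by positivity)] at hR2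
        nlinarith [sq_nonneg ε]
  have : Finite (Matrix.ProjectiveSpecialLinearGroup (Fin n) F) :=
    Nat.finite_of_card_ne_zero (by omega)
  refine le_trans ?_ ((psl_bound m n hm hn F ℓ hδ).trans ?_)
  · refine Nat.cast_le.2 (Nat.card_le_card_of_injective _
      (Subtype.map_injective (f := id) ?_ Function.injective_id))
    exact fun g ⟨w, h1, h2, h3⟩ => ⟨w, h1, Nat.le_floor h2.le, h3⟩
  · gcongr
    linarith

end LieGirth
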