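import Pool.Agent.P.MP_d589a8_al.Lie.CGood
import Pool.Agent.P.MP_d589a8_al.Lie.Main

/-! Subgroups of `PGL` containing two opposite block-unipotent groups: the girth bound. -/

namespace LieGirth

open Finset Matrix

variable {r k : ℕ} {F : Type} [Field F]

/-- The representation of the preimage of `G` in `GL`. -/
noncomputable def mkRep [Finite F] (hk : k ≤ 2) (σ : F →+* F) (η : F)
    (G : Subgroup (Matrix.ProjGenLinGroup ((Fin r ⊕ Fin r) ⊕ Fin k) F))
    (hU : ∀ (A : Matrix (Fin r) (Fin r) F) (g : GL ((Fin r ⊕ Fin r) ⊕ Fin k) F),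
      g.val = fromBlocks (fromBlocks 1 (A + η • (A.map σ)ᵀ) 0 1) 0 0 1 →
        Matrix.ProjGenLinGroup.mk g ∈ G)
    (hL : ∀ (A : Matrix (Fin r) (Fin r) F) (g : GL ((Fin r ⊕ Fin r) ⊕ Fin k) F),
      g.val = fromBlocks (fromBlocks 1 0 (A + η • (A.map σ)ᵀ) 1) 0 0 1 →
        Matrix.ProjGenLinGroup.mk g ∈ G) :
    Rep ((Fin r ⊕ Fin r) ⊕ Fin k) (Fin r) (G.comap Matrix.ProjGenLinGroup.mk) σ η where
  ρ := (Units.coeHom _).comp (Subgroup.subtype _)
  P := fromRows (fromRows 1 0) 0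
  Q := fromCols (fromCols 0 1) 0
  P' := fromRows (fromRows 0 1) 0
  Q' := fromCols (fromCols 1 0) 0
  h1 := by simp [fromCols_mul_fromRows]
  h2 := by simp [fromCols_mul_fromRows]
  h3 := by simp [fromCols_mul_fromRows]
  h4 := by simp [fromCols_mul_fromRows]
  U A := ⟨(uu (fromRows (fromRows 1 0) 0) (fromCols (fromCols 0 1) 0)
    (by simp [fromCols_mul_fromRows]) (nn σ η A)).toGL, hU A _ (by
      change 1 + _ = _
      simp only [fromRows_mul, mul_fromCols, Matrix.one_mul, Matrix.zero_mul, Matrix.mul_zero,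
        Matrix.mul_one]
      ext ((a | a) | a) ((b | b) | b) <;> simp [Matrix.one_apply, nn, adj])⟩
  U' A := ⟨(uu (fromRows (fromRows 0 1) 0) (fromCols (fromCols 1 0) 0)
    (by simp [fromCols_mul_fromRows]) (nn σ η A)).toGL, hL A _ (by
      change 1 + _ = _
      simp only [fromRows_mul, mul_fromCols, Matrix.one_mul, Matrix.zero_mul, Matrix.mul_zero,
        Matrix.mul_one]
      ext ((a | a) | a) ((b | b) | b) <;> simp [Matrix.one_apply, nn, adj])⟩
  hU A := rfl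
  hU' A := rfl
  hK := by
    refine le_trans (Nat.card_le_card_of_injective (β := Fin k → F) (fun v => v.1 ∘ Sum.inr)
      fun v v' h => Subtype.ext (funext fun a => ?_)) ?_
    · have h1 := v.2
      have h2 := v'.2
      simp only [fromCols_mulVec, zero_mulVec, one_mulVec, add_zero, zero_add] at h1 h2
      rcases a with (a | a) | a
      · exact (congrFun h1.2 a).trans (congrFun h2.2 a).symm
      · exact (congrFun h1.1 a).trans (congrFun h2.1 a).symm
      · exact congrFun h a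
    · rw [Nat.card_fun, Nat.card_fin]
      exact Nat.pow_le_pow_right Nat.card_pos hk

theorem cl_bound (m : ℕ) (hm : 2 ≤ m) (hr : 8 ≤ r) (hk : k ≤ 2) [Finite F] (σ : F →+* F) (η : F)
    (hσ : ∀ a, σ (σ a) = a) (hη : η ≠ 0)
    (G : Subgroup (Matrix.ProjGenLinGroup ((Fin r ⊕ Fin r) ⊕ Fin k) F))
    (hU : ∀ (A : Matrix (Fin r) (Fin r) F) (g : GL ((Fin r ⊕ Fin r) ⊕ Fin k) F),
      g.val = fromBlocks (fromBlocks 1 (A + η • (A.map σ)ᵀ) 0 1) 0 0 1 →
        Matrix.ProjGenLinGroup.mk g ∈ G)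
    (hL : ∀ (A : Matrix (Fin r) (Fin r) F) (g : GL ((Fin r ⊕ Fin r) ⊕ Fin k) F),
      g.val = fromBlocks (fromBlocks 1 0 (A + η • (A.map σ)ᵀ) 1) 0 0 1 →
        Matrix.ProjGenLinGroup.mk g ∈ G) (ℓ : ℕ) {δ : ℝ}
    (hδ : (16 * m ^ 2 < Nat.card {a // σ a = a} ∧
        ((ℓ : ℝ) / Nat.card {a // σ a = a}) ^ ((r / 4 - 1) / (32 * m ^ 2) + 1) ≤ δ) ∨
      (2 * ℓ + 1) * (Nat.card F : ℝ) ^ (2 * ℓ) / (Nat.card F : ℝ) ^ (r / 4) ≤ δ) :
    (Nat.card {g : Fin m → G //
      ∃ w : FreeGroup (Fin m), w ≠ 1 ∧ w.norm ≤ ℓ ∧ FreeGroup.lift g w = 1} : ℝ) ≤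
      (8 * m ^ 2 / (Nat.card F : ℝ) ^ (r / 4) + (2 * m + 1) ^ ℓ * δ) * (Nat.card G : ℝ) ^ m := by
  classical
  have := Fintype.ofFinite F
  have : Finite (Matrix.ProjGenLinGroup ((Fin r ⊕ Fin r) ⊕ Fin k) F) :=
    Finite.of_surjective _ Matrix.ProjGenLinGroup.mk_surjective
  have := Fintype.ofFinite G
  have := Fintype.ofFinite (G.comap Matrix.ProjGenLinGroup.mk)
  have hq : (1 : ℝ) ≤ Nat.card F := by exact_mod_cast Nat.card_pos
  have hδ0 : 0 ≤ δ := by
    rcases hδ with h | h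
    · exact le_trans (by positivity) h.2
    · exact le_trans (by positivity) h
  have h1 := (mkRep hk σ η G hU hL).union (β := Fin m) hσ (by simpa using hm) (j := r / 4)
    (by omega) ℓ hδ0 fun S hS z L hl hz hL => by
    have hl' : (L.length : ℝ) ≤ ℓ := by exact_mod_cast hl
    rcases hδ with h | h
    · refine (S.zc_bound2 σ η hσ hη hS (4 * m ^ 2) (by simp [mul_pow]) (by omega)
        ((r / 4 - 1) / (32 * m ^ 2) + 1) (fun r' hr' => ?_) z L hz hL).trans
        (le_trans (by gcongr) h.2)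
      have h2 : r' ≤ (r / 4 - 1) / (32 * m ^ 2) := by omega
      rw [Nat.le_div_iff_mul_le (by positivity)] at h2
      rw [Fintype.card_fin]
      have h3 : 8 * (4 * m ^ 2 * r') = r' * (32 * m ^ 2) := by ring
      omega
    · refine (S.exp_bound2 σ η z hσ hS L hz hL).trans (le_trans ?_ h)
      rw [Fintype.card_fin, div_le_div_iff₀ (by positivity) (by positivity), mul_assoc, mul_assoc,
        ← pow_add, ← pow_add]
      have h2 : (0 : ℝ) ≤ ℓ := by positivity
      exact mul_le_mul (by linarith) (pow_le_pow_right₀ hq (by omega)) (by positivity)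
        (by positivity)
  let π := MonoidHom.subgroupComap Matrix.ProjGenLinGroup.mk G
  have h2 := pr_hom (MonoidHom.compLeft π (Fin m))
    (Function.Surjective.comp_left (MonoidHom.subgroupComap_surjective_of_surjective _ _
      Matrix.ProjGenLinGroup.mk_surjective))
    (fun g => ∃ w : FreeGroup (Fin m), w ≠ 1 ∧ w.norm ≤ ℓ ∧ FreeGroup.lift g w = 1)
  have h3 : ∀ (g : Fin m → G.comap Matrix.ProjGenLinGroup.mk) (w : FreeGroup (Fin m)),
      FreeGroup.lift (MonoidHom.compLeft π (Fin m) g) w = π (FreeGroup.lift g w) := by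
    intro g w
    have : FreeGroup.lift (MonoidHom.compLeft π (Fin m) g) = π.comp (FreeGroup.lift g) := by
      ext i; simp
    rw [this]; rfl
  have h4 := (le_of_eq h2.symm).trans ((pr_mono fun g ⟨w, a1, a2, a3⟩ => ⟨w, a1, a2, by
    rw [h3] at a3
    exact Matrix.GeneralLinearGroup.mem_center_iff_val_mem_range_scalar.1
      (Matrix.ProjGenLinGroup.mk_eq_one.1 (congrArg Subtype.val a3))⟩).trans h1)
  rw [pr_eq, Nat.card_fun, Nat.card_fin,
    div_le_iff₀ (by exact_mod_cast pow_pos Nat.card_pos m)] at h4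
  refine h4.trans (le_of_eq ?_)
  simp only [Fintype.card_fin]
  push_cast
  ring

lemma card_sub_le [Finite F] (hk : k ≤ r) (σ : F →+* F) (hσ : ∀ a, σ (σ a) = a)
    (G : Subgroup (Matrix.ProjGenLinGroup ((Fin r ⊕ Fin r) ⊕ Fin k) F)) :
    Nat.card G ≤ Nat.card {a // σ a = a} ^ (18 * (r * r)) := by
  have : Finite (Matrix.ProjGenLinGroup ((Fin r ⊕ Fin r) ⊕ Fin k) F) :=
    Finite.of_surjective _ Matrix.ProjGenLinGroup.mk_surjective
  have h0 : Nat.card G ≤ Nat.card (Matrix.ProjGenLinGroup ((Fin r ⊕ Fin r) ⊕ Fin k) F) :=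
    Nat.card_le_card_of_injective _ Subtype.val_injective
  have h1 := Nat.card_le_card_of_surjective _
    (Matrix.ProjGenLinGroup.mk_surjective (n := (Fin r ⊕ Fin r) ⊕ Fin k) (R := F))
  have h2 : Nat.card (GL ((Fin r ⊕ Fin r) ⊕ Fin k) F) ≤
      Nat.card ((Fin r ⊕ Fin r) ⊕ Fin k → (Fin r ⊕ Fin r) ⊕ Fin k → F) :=
    Nat.card_le_card_of_injective (fun g => g.val) fun a b h => Units.ext h
  rw [Nat.card_fun, Nat.card_fun, Nat.card_sum, Nat.card_sum, Nat.card_fin, Nat.card_fin,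
    ← pow_mul] at h2
  refine h0.trans (h1.trans (h2.trans ?_))
  refine (Nat.pow_le_pow_left (card_le_fixed_sq σ hσ) _).trans ?_
  have : Nonempty {a // σ a = a} := ⟨⟨0, map_zero σ⟩⟩
  rw [← pow_mul]
  exact Nat.pow_le_pow_right Nat.card_pos (by nlinarith)

theorem cl_main (m : ℕ) (hm : 2 ≤ m) : ∃ c : ℝ, 0 < c ∧ ∀ ε : ℝ, 0 < ε → ∃ N : ℕ,
    ∀ (r k : ℕ) (F : Type) [Field F] [Finite F] (σ : F →+* F) (η : F)
      (G : Subgroup (Matrix.ProjGenLinGroup ((Fin r ⊕ Fin r) ⊕ Fin k) F)),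
      8 ≤ r → k ≤ 2 → (∀ a, σ (σ a) = a) → η ≠ 0 →
      (∀ (A : Matrix (Fin r) (Fin r) F) (g : GL ((Fin r ⊕ Fin r) ⊕ Fin k) F),
        g.val = fromBlocks (fromBlocks 1 (A + η • (A.map σ)ᵀ) 0 1) 0 0 1 →
          Matrix.ProjGenLinGroup.mk g ∈ G) →
      (∀ (A : Matrix (Fin r) (Fin r) F) (g : GL ((Fin r ⊕ Fin r) ⊕ Fin k) F),
        g.val = fromBlocks (fromBlocks 1 0 (A + η • (A.map σ)ᵀ) 1) 0 0 1 →
          Matrix.ProjGenLinGroup.mk g ∈ G) →
      N ≤ Nat.card G →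
      (Nat.card {g : Fin m → G // ∃ w : FreeGroup (Fin m), w ≠ 1 ∧
          (w.norm : ℝ) < c * r * Real.log (2 + (Nat.card {a // σ a = a} : ℝ) / r) ∧
          FreeGroup.lift g w = 1} : ℝ) ≤ ε * (Nat.card G : ℝ) ^ m := by
  have hm0 : (2 : ℝ) ≤ m := by exact_mod_cast hm
  set K : ℝ := 160 * (3 * m) ^ 2 * (2 * (3 * m) + 1) + 24 * (4 * m + 3) * (2 + 16 * m ^ 2) with hK
  have hK0 : 0 < K := by positivity
  refine ⟨1 / K, by positivity, fun ε hε => ?_⟩
  obtain ⟨R, hR⟩ := exists_nat_ge (16 * m ^ 2 / ε + 4 / ε ^ 2 + 4 / ε)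
  have hR1 : 16 * m ^ 2 / ε ≤ R :=
    le_trans (by rw [add_assoc]; exact le_add_of_nonneg_right (by positivity)) hR
  have hR2 : 4 / ε ^ 2 ≤ R := le_trans (by
    have : 0 ≤ 16 * (m : ℝ) ^ 2 / ε := by positivity
    have : 0 ≤ 4 / ε := by positivity
    linarith) hR
  have hR3 : 4 / ε ≤ R := le_trans (le_add_of_nonneg_left (by positivity)) hR
  have hR0 : (0 : ℝ) < R := lt_of_lt_of_le (by positivity) hR3
  have hR0' : 0 < R := by exact_mod_cast hR0
  set n₀ := 40 * (3 * m) ^ 2 * R with hn₀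
  refine ⟨(n₀ * 3 ^ R) ^ (18 * (n₀ * n₀)) + 1, fun n k F _ _ σ η G hn hk hσ hη hU hL hN => ?_⟩
  have hQ2 : 2 ≤ Nat.card F := Finite.one_lt_card
  have hqQ : Nat.card {a // σ a = a} ≤ Nat.card F :=
    Nat.card_le_card_of_injective _ Subtype.val_injective
  have hcard := card_sub_le (by omega) σ hσ G
  have hb := cl_bound m hm hn hk σ η hσ hη G hU hL
  set q := Nat.card {a // σ a = a} with hqd
  set Q := Nat.card F with hQd
  have hm2 : 4 ≤ m ^ 2 := by nlinarith
  have hn₀R : 160 * R ≤ n₀ := by rw [hn₀]; nlinarith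
  have hbig : n₀ < n ∨ n₀ * 3 ^ R < q := by
    by_contra hcon
    push Not at hcon
    have h2 : q ^ (18 * (n * n)) ≤ (n₀ * 3 ^ R) ^ (18 * (n₀ * n₀)) :=
      (Nat.pow_le_pow_left hcon.2 _).trans (Nat.pow_le_pow_right (by positivity)
        (Nat.mul_le_mul_left _ (Nat.mul_le_mul hcon.1 hcon.1)))
    omega
  have hT : R ≤ Q ^ (n / 4) := by
    rcases hbig with h | h
    · have h1 : n / 4 < 2 ^ (n / 4) := Nat.lt_two_pow_self
      have h2 : 2 ^ (n / 4) ≤ Q ^ (n / 4) := Nat.pow_le_pow_left hQ2 _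
      omega
    · have h1 : Q ≤ Q ^ (n / 4) := Nat.le_self_pow (by omega) _
      have h2 : n₀ ≤ n₀ * 3 ^ R := Nat.le_mul_of_pos_right _ (by positivity)
      omega
  have hT' : (R : ℝ) ≤ (Q : ℝ) ^ (n / 4) := by exact_mod_cast hT
  have hn0 : (0 : ℝ) < n := by positivity
  have hx0 : (0 : ℝ) ≤ (q : ℝ) / n := by positivity
  have hL0 : 0 ≤ Real.log (2 + (q : ℝ) / n) := Real.log_nonneg (by linarith)
  set ℓ := ⌊1 / K * n * Real.log (2 + (q : ℝ) / n)⌋₊ with hℓ
  have hl : (ℓ : ℝ) ≤ 1 / K * n * Real.log (2 + (q : ℝ) / n) := Nat.floor_le (by positivity)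
  have hfirst : 8 * (m : ℝ) ^ 2 / (Q : ℝ) ^ (n / 4) ≤ ε / 2 := by
    rw [div_le_iff₀ (by positivity)]
    rw [div_le_iff₀ hε] at hR1
    nlinarith
  obtain ⟨δ, hδ, hδ'⟩ : ∃ δ : ℝ, ((16 * m ^ 2 < q ∧
      ((ℓ : ℝ) / q) ^ ((n / 4 - 1) / (32 * m ^ 2) + 1) ≤ δ) ∨
      (2 * ℓ + 1) * (Q : ℝ) ^ (2 * ℓ) / (Q : ℝ) ^ (n / 4) ≤ δ) ∧
      (2 * m + 1 : ℝ) ^ ℓ * δ ≤ ε / 2 := by
    by_cases hx : 16 * (m : ℝ) ^ 2 ≤ (q : ℝ) / n
    · have hn3 : (8 : ℝ) ≤ n := by exact_mod_cast hn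
      have hx2 : 2 ≤ (q : ℝ) / n := by nlinarith
      have hs : n ≤ 40 * (3 * m) ^ 2 * ((n / 4 - 1) / (32 * m ^ 2) + 1) := by
        have h1 := Nat.lt_mul_div_succ (n / 4 - 1) (b := 32 * m ^ 2) (by positivity)
        have h2 : 40 * (3 * m) ^ 2 * ((n / 4 - 1) / (32 * m ^ 2) + 1) =
            6 * (32 * m ^ 2 * ((n / 4 - 1) / (32 * m ^ 2) + 1)) +
              168 * m ^ 2 * ((n / 4 - 1) / (32 * m ^ 2) + 1) := by ring
        omega
      refine ⟨_, Or.inl ⟨?_, le_rfl⟩, le_trans ?_ ((est_large (m := 3 * m) (c := 1 / K) (by omega)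
        (by omega) (by positivity) ?_ hs hx2 hl hR0 ?_).trans ?_)⟩
      · rw [le_div_iff₀ hn0] at hx
        have : 16 * (m : ℝ) ^ 2 < q := by nlinarith
        exact_mod_cast this
      · push_cast
        gcongr
        linarith
      · rw [one_div_mul_eq_div, div_le_one hK0]
        push_cast
        exact le_add_of_nonneg_right (by positivity)
      · have h3 : 1 ≤ Real.log 3 := by
          rw [Real.le_log_iff_exp_le (by norm_num)]
          linarith [Real.exp_one_lt_d9]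
        set s := (n / 4 - 1) / (32 * m ^ 2) + 1 with hsd
        by_cases hn1 : n₀ < n
        · have h1 : R ≤ s := (Nat.lt_of_mul_lt_mul_left (hn1.trans_le hs)).le
          have h2 : (R : ℝ) ≤ s := by exact_mod_cast h1
          have h4 : Real.log 3 ≤ Real.log (2 + (q : ℝ) / n) :=
            Real.log_le_log (by norm_num) (by linarith)
          nlinarith
        · have h1 : n * 3 ^ R ≤ q :=
            (Nat.mul_le_mul_right _ (not_lt.1 hn1)).trans (hbig.resolve_left hn1).le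
          have h2 : (3 : ℝ) ^ R ≤ (q : ℝ) / n := by
            rw [le_div_iff₀ hn0, mul_comm]; exact_mod_cast h1
          have h4 : Real.log (3 ^ R) ≤ Real.log (2 + (q : ℝ) / n) :=
            Real.log_le_log (by positivity) (by linarith)
          rw [Real.log_pow] at h4
          have h5 : (1 : ℝ) ≤ s := by exact_mod_cast Nat.le_add_left 1 _
          nlinarith
      · rw [div_le_iff₀ hε] at hR3
        rw [div_le_div_iff₀ hR0 (by norm_num)]
        linarith
    · refine ⟨_, Or.inr le_rfl, le_trans ?_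
        (est_small (m := m) (j := n / 4) (ℓ := 2 * ℓ) (η := ε / 2) hQ2 ?_ (by positivity) ?_)⟩
      · push_cast
        refine mul_le_mul_of_nonneg_right (pow_le_pow_right₀ (by linarith) (by omega))
          (by positivity)
      · have h1 : Real.log (2 + (q : ℝ) / n) ≤ 2 + 16 * m ^ 2 := by
          linarith [Real.log_le_sub_one_of_pos (show 0 < 2 + (q : ℝ) / n by positivity)]
        have h2 : (n : ℝ) ≤ 6 * (n / 4 : ℕ) := by exact_mod_cast (by omega : n ≤ 6 * (n / 4))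
        have h3 : 24 * (4 * m + 3) * (2 + 16 * m ^ 2) / K ≤ 1 := by
          rw [div_le_one hK0]; exact le_add_of_nonneg_left (by positivity)
        have h4 : 2 * ((4 * m + 3) * (2 * (ℓ : ℝ))) ≤ (n / 4 : ℕ) :=
          calc 2 * ((4 * m + 3) * (2 * (ℓ : ℝ)))
              ≤ 2 * ((4 * m + 3) * (2 * (1 / K * (6 * (n / 4 : ℕ)) * (2 + 16 * m ^ 2)))) := by
                gcongr; refine hl.trans ?_; gcongr
            _ = 24 * (4 * m + 3) * (2 + 16 * m ^ 2) / K * (n / 4 : ℕ) := by ring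
            _ ≤ 1 * (n / 4 : ℕ) := by gcongr
            _ = _ := one_mul _
        exact_mod_cast h4
      · rw [div_le_iff₀ (by positivity)] at hR2
        nlinarith [sq_nonneg ε]
  have : Finite G := Nat.finite_of_card_ne_zero (by omega)
  refine le_trans ?_ ((hb ℓ hδ).trans ?_)
  · refine Nat.cast_le.2 (Nat.card_le_card_of_injective _
      (Subtype.map_injective (f := id) ?_ Function.injective_id))
    exact fun g ⟨w, h1, h2, h3⟩ => ⟨w, h1, Nat.le_floor h2.le, h3⟩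
  · gcongr
    linarith

end LieGirth
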