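import Pool.Agent.P.MP_d589a8_al.Lie.Word

/-! The exposure bound for short words. -/

namespace LieGirth

open Finset Matrix Module

variable {F κ I J β : Type} [Field F] [Fintype κ] [DecidableEq κ] [Fintype I] [DecidableEq I]
  [Fintype J] [DecidableEq J] [Fintype β] [DecidableEq β]

open Classical in
/-- A functional that kills `H` and takes the value `1` at `u` when `u ∉ H`. -/
noncomputable def fn (H : Submodule F (J → F)) (u : J → F) : J → F :=
  if h : u ∉ H then (sep H h).choose else 0

lemma fn_zero (H : Submodule F (J → F)) (u : J → F) : ∀ h ∈ H, fn H u ⬝ᵥ h = 0 := by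
  intro h hh
  unfold fn
  split_ifs with hu
  · simp
  · exact (sep H hu).choose_spec.2 h hh

lemma fn_one {H : Submodule F (J → F)} {u : J → F} (hu : u ∉ H) : fn H u ⬝ᵥ u = 1 := by
  unfold fn
  rw [dif_pos hu]
  exact (sep H hu).choose_spec.1

lemma pr_mem [Fintype F] (C : Matrix J I F) (hC : ∀ φ, φ ᵥ* C = 0 → φ = 0)
    (H : Submodule F (J → F)) {r : ℕ} (hr : finrank F H ≤ r) (c : J → F) {a : F} (ha : a ≠ 0) :
    pr (fun p : I → F => c + a • C *ᵥ p ∈ H) ≤
      (Nat.card F : ℝ) ^ r / (Nat.card F : ℝ) ^ Fintype.card J := by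
  have h1 := pr_addHom C.mulVecLin.toAddMonoidHom (surj_of_inj C hC) (fun b => c + a • b ∈ H)
  have h2 := pr_bij (fun b : J → F => c + a • b) (Finite.injective_iff_bijective.1 fun b b' h =>
    smul_right_injective _ ha (add_left_cancel h)) (fun b => b ∈ H)
  refine (le_of_eq (h1.trans h2)).trans ?_
  rw [pr_eq, Nat.card_fun, Nat.card_eq_fintype_card (α := J)]
  have h3 : Nat.card H = Nat.card F ^ finrank F H := Module.natCard_eq_pow_finrank
  have h4 : Nat.card H ≤ Nat.card F ^ r := h3 ▸ Nat.pow_le_pow_right Nat.card_pos hr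
  push_cast
  gcongr
  exact_mod_cast h4

namespace Dat

variable (S : Dat F κ I J β) (z : β × Bool)

/-- The trajectory of the start vector. -/
def tr (ω : (β → Matrix I J F) × (I → F)) (L : List (β × Bool)) : κ → F :=
  S.W ω.1 L *ᵥ ((S.D z * S.P) *ᵥ ω.2)

/-- The query made by the next letter. -/
def qry (ω : (β → Matrix I J F) × (I → F)) (y : β × Bool) (L : List (β × Bool)) : J → F :=
  (S.Q * S.Di y) *ᵥ S.tr z ω L

/-- The span of the earlier queries. -/
def H (ω : (β → Matrix I J F) × (I → F)) : List (β × Bool) → Submodule F (J → F)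
  | [] => ⊥
  | x :: L => H ω L ⊔ Submodule.span F {S.qry z ω (bar x) L}

lemma tr_cons (ω : (β → Matrix I J F) × (I → F)) (x : β × Bool) (L : List (β × Bool)) :
    S.tr z ω (x :: L) = (S.D x * S.Di (bar x)) *ᵥ S.tr z ω L +
      sg F x • (S.D x * S.P) *ᵥ (ω.1 x.1 *ᵥ S.qry z ω (bar x) L) := by
  unfold qry
  rw [← lm_mulVec]
  simp only [tr, W, List.map_cons, List.prod_cons, Matrix.mulVec_mulVec, Matrix.mul_assoc]

lemma finrank_H (ω : (β → Matrix I J F) × (I → F)) (L : List (β × Bool)) :
    finrank F (S.H z ω L) ≤ L.length := by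
  induction L with
  | nil => exact (finrank_bot F (J → F)).le
  | cons x L ih =>
    have h1 := Submodule.finrank_add_le_finrank_add_finrank (S.H z ω L)
      (Submodule.span F {S.qry z ω (bar x) L})
    have h2 : finrank F (Submodule.span F {S.qry z ω (bar x) L}) ≤ 1 := by
      simpa using finrank_span_le_card (R := F) ({S.qry z ω (bar x) L} : Set (J → F))
    exact h1.trans (add_le_add ih h2)

lemma inv (ω ω' : (β → Matrix I J F) × (I → F)) (h2 : ω'.2 = ω.2) (L : List (β × Bool))
    (h : ∀ i, ∀ u ∈ S.H z ω L, ω'.1 i *ᵥ u = ω.1 i *ᵥ u) :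
    S.tr z ω' L = S.tr z ω L ∧ S.H z ω' L = S.H z ω L := by
  induction L with
  | nil => simp [tr, W, H, h2]
  | cons x L ih =>
    obtain ⟨h3, h4⟩ := ih fun i u hu => h i u (Submodule.mem_sup_left hu)
    have h5 : S.qry z ω' (bar x) L = S.qry z ω (bar x) L := by unfold qry; rw [h3]
    refine ⟨?_, by simp only [H, h4, h5]⟩
    rw [tr_cons, tr_cons, h3, h5,
      h _ _ (Submodule.mem_sup_right (Submodule.mem_span_singleton_self _))]

theorem exp_aux [Fintype F] (hS : S.Good) (L : List (β × Bool)) (y : β × Bool)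
    (hy : L.headD z ≠ y) (hL : List.IsChain (fun x y => y ≠ bar x) (L ++ [z])) :
    pr (fun ω => S.qry z ω y L ∈ S.H z ω L) ≤
      (L.length + 1) * (Nat.card F : ℝ) ^ L.length / (Nat.card F : ℝ) ^ Fintype.card J := by
  have hq : (1 : ℝ) ≤ Nat.card F := by exact_mod_cast Nat.card_pos
  induction L generalizing y with
  | nil =>
    refine pr_prod_le _ (by positivity) fun N => ?_
    have := pr_mem (S.C y z) (hS y z (Ne.symm hy)) ⊥ (r := 0) (by simp) 0 one_ne_zero
    simpa [qry, tr, W, H, C] using this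
  | cons x L ih =>
    have h1 := ih (bar x) (chain_head hL) (List.IsChain.tail hL)
    let ph : (β → Matrix I J F) × (I → F) → J → F := fun ω =>
      fn (S.H z ω L) (S.qry z ω (bar x) L)
    let τ : (I → F) → (β → Matrix I J F) × (I → F) → (β → Matrix I J F) × (I → F) :=
      fun a ω => (ω.1 + fun _ => vecMulVec a (ph ω), ω.2)
    have hτ : ∀ a ω, S.tr z (τ a ω) L = S.tr z ω L ∧ S.H z (τ a ω) L = S.H z ω L := fun a ω =>
      S.inv z ω (τ a ω) rfl L fun i u hu => by
        simp only [τ, ph, Pi.add_apply, Matrix.add_mulVec, vmv, fn_zero _ _ u hu, zero_smul,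
          add_zero]
    have hq' : ∀ a ω, S.qry z (τ a ω) (bar x) L = S.qry z ω (bar x) L := fun a ω => by
      unfold qry; rw [(hτ a ω).1]
    have hph : ∀ a ω, ph (τ a ω) = ph ω := fun a ω => by
      simp only [ph, hq', (hτ a ω).2]
    have h2 : pr (fun ω => S.qry z ω (bar x) L ∉ S.H z ω L ∧
        S.qry z ω y (x :: L) ∈ S.H z ω (x :: L)) ≤
        (Nat.card F : ℝ) ^ (L.length + 1) / (Nat.card F : ℝ) ^ Fintype.card J := by
      refine pr_act τ (fun a ω ω' h => ?_) _ (by positivity) fun ω => ?_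
      · have h3 : ph ω = ph ω' := by rw [← hph a ω, h, hph]
        simp only [τ, h3, Prod.mk.injEq, add_left_inj] at h
        exact Prod.ext h.1 h.2
      · by_cases hb : S.qry z ω (bar x) L ∈ S.H z ω L
        · rw [pr_false fun a ha => ha.1 (by rw [hq', (hτ a ω).2]; exact hb)]
          positivity
        · refine le_trans (pr_mono fun a ha => ?_) (pr_mem (S.C y x) (hS y x (Ne.symm hy))
            (S.H z ω (x :: L)) (S.finrank_H z ω (x :: L)) (S.qry z ω y (x :: L)) (sg_ne x))
          have h3 : S.H z (τ a ω) (x :: L) = S.H z ω (x :: L) := by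
            simp only [H, hq', (hτ a ω).2]
          have h4 : S.qry z (τ a ω) y (x :: L) =
              S.qry z ω y (x :: L) + sg F x • S.C y x *ᵥ a := by
            have h5 : (τ a ω).1 x.1 *ᵥ S.qry z ω (bar x) L =
                ω.1 x.1 *ᵥ S.qry z ω (bar x) L + a := by
              simp only [τ, ph, Pi.add_apply, Matrix.add_mulVec, vmv, fn_one hb, one_smul]
            rw [qry, qry, tr_cons, tr_cons, hq', (hτ a ω).1, h5, C, ← Matrix.mulVec_mulVec a]
            simp only [Matrix.mulVec_add, Matrix.mulVec_smul, smul_add, add_assoc]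
          rw [← h3, ← h4]
          exact ha.2
    have h3 := pr_mono (p := fun ω => S.qry z ω y (x :: L) ∈ S.H z ω (x :: L))
      (q := fun ω => S.qry z ω (bar x) L ∈ S.H z ω L ∨ (S.qry z ω (bar x) L ∉ S.H z ω L ∧
        S.qry z ω y (x :: L) ∈ S.H z ω (x :: L))) fun ω hω => by tauto
    refine h3.trans ((pr_or _ _).trans ((add_le_add h1 h2).trans ?_))
    rw [← add_div, List.length_cons]
    have h4 : (Nat.card F : ℝ) ^ L.length ≤ (Nat.card F : ℝ) ^ (L.length + 1) :=
      pow_le_pow_right₀ hq (Nat.le_succ _)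
    have h5 : (0 : ℝ) ≤ L.length + 1 := by positivity
    push_cast
    gcongr
    nlinarith

theorem exp_bound [Fintype F] (hS : S.Good) (L : List (β × Bool))
    (hz : L.headD z ≠ z) (hL : List.IsChain (fun x y => y ≠ bar x) (L ++ [z])) :
    pr (S.Ev z L) ≤
      (L.length + 1) * (Nat.card F : ℝ) ^ L.length / (Nat.card F : ℝ) ^ Fintype.card J := by
  rw [← pr_fst (β := I → F)]
  refine le_trans (pr_mono fun ω hω => ?_) (S.exp_aux z hS L z hz hL)
  have : S.qry z ω z L = 0 := by
    rw [qry, tr, Matrix.mulVec_mulVec, Matrix.mulVec_mulVec, show _ = _ from hω,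
      Matrix.zero_mulVec]
  rw [this]
  exact zero_mem _

end Dat

end LieGirth
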