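import Mathlib

/-! Greedy biorthogonal systems for a finite family of surjective matrices. -/

namespace LieGirth

open Finset Matrix Module

variable {F I J ι : Type} [Field F] [Fintype I] [Fintype J] [DecidableEq I] [DecidableEq J]

lemma sep (H : Submodule F (J → F)) {u : J → F} (hu : u ∉ H) :
    ∃ φ : J → F, φ ⬝ᵥ u = 1 ∧ ∀ h ∈ H, φ ⬝ᵥ h = 0 := by
  obtain ⟨f, hf, hf'⟩ := Submodule.exists_dual_map_eq_bot_of_notMem hu inferInstance
  have key : ∀ v : J → F, (fun a => f (Pi.single a 1)) ⬝ᵥ v = f v := by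
    intro v
    rw [LinearMap.pi_apply_eq_sum_univ f v]
    simp only [dotProduct, smul_eq_mul]
    refine Finset.sum_congr rfl fun a _ => ?_
    rw [mul_comm]
    congr 2
    funext b
    simp [Pi.single_apply, eq_comm]
  refine ⟨(f u)⁻¹ • fun a => f (Pi.single a 1), ?_, fun h hh => ?_⟩
  · rw [smul_dotProduct, key, smul_eq_mul, inv_mul_cancel₀ hf]
  · have : f h = 0 := by
      have : f h ∈ H.map f := Submodule.mem_map_of_mem hh
      rwa [hf', Submodule.mem_bot] at this
    rw [smul_dotProduct, key, this, smul_zero]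

lemma surj_of_inj (C : Matrix J I F) (hC : ∀ φ, φ ᵥ* C = 0 → φ = 0) :
    Function.Surjective C.mulVecLin := by
  intro u
  by_contra hu
  obtain ⟨φ, h1, h2⟩ := sep (LinearMap.range C.mulVecLin) hu
  have : φ ᵥ* C = 0 := by
    funext b
    have := h2 _ ⟨Pi.single b 1, rfl⟩
    rw [Matrix.mulVecLin_apply, Matrix.dotProduct_mulVec] at this
    simpa using this
  rw [hC φ this] at h1
  simp at h1

lemma avoid {V : Type*} [AddCommGroup V] [Module F V] [Fintype ι] [Finite F]
    (hM : Fintype.card ι < Nat.card F) (U : Submodule F V) (B : ι → Submodule F V)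
    (h : ∀ a, ¬ U ≤ B a) : ∃ v ∈ U, ∀ a, v ∉ B a := by
  have h1 := Submodule.iUnion_ssubset_of_forall_ne_top_of_card_lt Finset.univ
    (fun a => (B a).comap U.subtype) (fun a ha => h a (Submodule.comap_subtype_eq_top.1 ha))
    (by rw [ENat.card_eq_coe_natCard]; exact_mod_cast hM)
  obtain ⟨v, -, hv⟩ := Set.exists_of_ssubset h1
  refine ⟨v.1, v.2, fun a ha => hv ?_⟩
  simp only [Set.mem_iUnion]
  exact ⟨a, Finset.mem_univ _, ha⟩

theorem greedy [Fintype ι] [Finite F] (hM : Fintype.card ι < Nat.card F)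
    (C : ι → Matrix J I F) (hC : ∀ a φ, φ ᵥ* C a = 0 → φ = 0) (s : ℕ)
    (hs : ∀ r < s, 2 * (Fintype.card ι * r) < Fintype.card J) :
    ∃ (p : Fin s → I → F) (φ : Fin s → J → F),
      ∀ a k l, φ k ⬝ᵥ C a *ᵥ p l = 0 ↔ k ≠ l := by
  induction s with
  | zero => exact ⟨fun _ => 0, fun _ => 0, fun _ k => k.elim0⟩
  | succ r ih =>
    obtain ⟨p, φ, h⟩ := ih fun r' hr' => hs r' (by omega)
    have hr := hs r (by omega)
    let Φ : (J → F) →ₗ[F] (ι × Fin r → F) :=
      Matrix.mulVecLin (Matrix.of fun x : ι × Fin r => C x.1 *ᵥ p x.2)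
    let S : Submodule F (I → F) := Submodule.span F (Set.range fun x : ι × Fin r => φ x.2 ᵥ* C x.1)
    have hS : finrank F S ≤ Fintype.card ι * r := by
      have := finrank_range_le_card (R := F) (fun x : ι × Fin r => φ x.2 ᵥ* C x.1)
      simpa [Set.finrank] using this
    have hU : Fintype.card J ≤ Fintype.card ι * r + finrank F (LinearMap.ker Φ) := by
      have h1 := LinearMap.finrank_range_add_finrank_ker Φ
      have h2 := Submodule.finrank_le (LinearMap.range Φ)
      simp only [Module.finrank_fintype_fun_eq_card, Fintype.card_prod, Fintype.card_fin] at h1 h2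
      omega
    obtain ⟨ψ, hψ, hψ'⟩ := avoid hM (LinearMap.ker Φ) (fun a => S.comap (C a).vecMulLinear)
      (fun a ha => by
        have h1 := Submodule.finrank_mono ha
        have h2 : finrank F (S.comap (C a).vecMulLinear) ≤ finrank F S := by
          refine LinearMap.finrank_le_finrank_of_injective
            (f := (C a).vecMulLinear.restrict (p := S.comap (C a).vecMulLinear) (q := S)
              fun x hx => hx) ?_
          rw [injective_iff_map_eq_zero]
          intro x hx
          exact Subtype.ext (hC a x.1 (congrArg Subtype.val hx))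
        omega)
    let W : Submodule F (I → F) :=
      LinearMap.ker (Matrix.mulVecLin (Matrix.of fun x : ι × Fin r => φ x.2 ᵥ* C x.1))
    have hW : ∀ v, v ∈ W ↔ ∀ a k, (φ k ᵥ* C a) ⬝ᵥ v = 0 := by
      intro v
      simp only [W, LinearMap.mem_ker, Matrix.mulVecLin_apply, funext_iff, Prod.forall]
      rfl
    obtain ⟨v, hv, hv'⟩ := avoid hM W
      (fun a => LinearMap.ker (Matrix.mulVecLin (Matrix.of fun _ : Unit => ψ ᵥ* C a)))
      (fun a ha => by
        obtain ⟨v, h1, h2⟩ := sep S (hψ' a)
        have h3 : v ∈ W := (hW v).2 fun b k => by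
          rw [dotProduct_comm]; exact h2 _ (Submodule.subset_span ⟨(b, k), rfl⟩)
        have h4 : (ψ ᵥ* C a) ⬝ᵥ v = 0 := congrFun (LinearMap.mem_ker.1 (ha h3)) ()
        rw [dotProduct_comm] at h1
        exact zero_ne_one (h4.symm.trans h1))
    refine ⟨Fin.cons v p, Fin.cons ψ φ, fun a k l => ?_⟩
    refine Fin.cases ?_ (fun k => ?_) k <;> refine Fin.cases ?_ (fun l => ?_) l
    · simp only [Fin.cons_zero, ne_eq, not_true, iff_false]
      intro h0
      refine hv' a (LinearMap.mem_ker.2 (funext fun _ => ?_))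
      rw [Matrix.dotProduct_mulVec] at h0
      exact h0
    · simp only [Fin.cons_zero, Fin.cons_succ, ne_eq, (Fin.succ_ne_zero l).symm, not_false_eq_true,
        iff_true]
      have := congrFun (LinearMap.mem_ker.1 hψ) (a, l)
      rw [dotProduct_comm]
      exact this
    · simp only [Fin.cons_zero, Fin.cons_succ, ne_eq, Fin.succ_ne_zero, not_false_eq_true,
        iff_true]
      rw [Matrix.dotProduct_mulVec]
      exact (hW v).1 hv a k
    · simp only [Fin.cons_succ, ne_eq, Fin.succ_inj]
      exact h a k l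

end LieGirth
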