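import Pool.Agent.P.MP_d589a8_al.Lie.ZC

/-! Leading terms of products of affine matrix functions along a chain. -/

namespace LieGirth

open Finset Matrix

variable {F σ κ X : Type} [Field F] [Fintype σ] [DecidableEq σ] [Fintype κ] [DecidableEq κ]

/-- Vector-valued polynomial functions of degree `< d`. -/
def LoV (d : ℕ) (v : (σ → F) → κ → F) : Prop := ∀ a, (fun t => v t a) ∈ Lo F σ d

lemma LoV.mono {d d' : ℕ} (h : d ≤ d') {v : (σ → F) → κ → F} (hv : LoV d v) : LoV d' v :=
  fun a => Lo_mono h (hv a)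

lemma LoV.add {d : ℕ} {v w : (σ → F) → κ → F} (hv : LoV d v) (hw : LoV d w) :
    LoV d (fun t => v t + w t) := fun a => add_mem (hv a) (hw a)

lemma LoV.dot {d : ℕ} {v : (σ → F) → κ → F} (hv : LoV d v) (ψ : κ → F) :
    (fun t => ψ ⬝ᵥ v t) ∈ Lo F σ d := by
  have : (fun t => ψ ⬝ᵥ v t) = ∑ b, ψ b • (fun t => v t b) := by
    funext t; simp [dotProduct, Finset.sum_apply]
  rw [this]
  exact Submodule.sum_mem _ fun b _ => Submodule.smul_mem _ _ (hv b)

lemma LoV.mulVec {d : ℕ} {v : (σ → F) → κ → F} (hv : LoV d v) (A : Matrix κ κ F) :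
    LoV d (fun t => A *ᵥ v t) := fun a => hv.dot (A a)

lemma LoV.lin {d : ℕ} {v : (σ → F) → κ → F} (hv : LoV d v) (A : σ → Matrix κ κ F) :
    LoV (d + 1) (fun t => (∑ l, t l • A l) *ᵥ v t) := by
  intro a
  have : (fun t => ((∑ l, t l • A l) *ᵥ v t) a) = ∑ l, (fun t => t l * (A l *ᵥ v t) a) := by
    funext t; simp [Matrix.sum_mulVec, Matrix.smul_mulVec, Finset.sum_apply]
  rw [this]
  exact Submodule.sum_mem _ fun l _ => coord_mul_mem l (hv.mulVec (A l) a)

lemma LoV.pow (k : σ) (r : ℕ) (c : F) (u : κ → F) :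
    LoV (r + 1) (fun t : σ → F => (c * t k ^ r) • u) := by
  intro a
  have : (fun t : σ → F => ((c * t k ^ r) • u) a) = (c * u a) • (fun t : σ → F => t k ^ r) := by
    funext t; simp; ring
  rw [this]
  exact Submodule.smul_mem _ _ (coord_pow_mem k r)

theorem lead (A0 : X → Matrix κ κ F) (A1 : X → σ → Matrix κ κ F) (e : X → κ → F)
    (R : X → X → Prop) (k : σ)
    (hA : ∀ x y, R x y → ∃ a : F, a ≠ 0 ∧ ∀ l, A1 x l *ᵥ e y = if l = k then a • e x else 0)
    (z : X) (L : List X) (hL : List.IsChain R (L ++ [z])) :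
    ∃ c : F, c ≠ 0 ∧ LoV L.length (fun t => (L.map fun x => A0 x + ∑ l, t l • A1 x l).prod *ᵥ e z
      - (c * t k ^ L.length) • e (L.headD z)) := by
  induction L with
  | nil => exact ⟨1, one_ne_zero, fun a => by simp; exact zero_mem _⟩
  | cons x L ih =>
    have hR : R x (L.headD z) := by
      cases L with
      | nil => simpa using hL
      | cons y L => exact (List.isChain_cons_cons.1 hL).1
    obtain ⟨c, hc, h⟩ := ih (List.IsChain.tail hL)
    obtain ⟨a, ha, hAa⟩ := hA x _ hR
    refine ⟨c * a, mul_ne_zero hc ha, ?_⟩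
    have h1 := ((h.mulVec (A0 x)).mono (Nat.le_succ _)).add
      (((LoV.pow k L.length c (e (L.headD z))).mulVec (A0 x)).add (h.lin (A1 x)))
    convert h1 using 1
    · rfl
    funext t
    have h2 : (∑ l, t l • A1 x l) *ᵥ e (L.headD z) = (t k * a) • e x := by
      rw [Matrix.sum_mulVec, Finset.sum_eq_single k]
      · rw [Matrix.smul_mulVec, hAa, if_pos rfl, smul_smul]
      · intro l _ hl; rw [Matrix.smul_mulVec, hAa, if_neg hl, smul_zero]
      · simp
    simp only [List.map_cons, List.prod_cons, List.length_cons, List.headD_cons]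
    rw [← Matrix.mulVec_mulVec, Matrix.add_mulVec]
    simp only [Matrix.mulVec_sub, Matrix.mulVec_smul, h2, smul_smul]
    have : c * t k ^ L.length * (t k * a) = c * a * t k ^ (L.length + 1) := by ring
    rw [this]
    abel

end LieGirth
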