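import Mathlib

/-! Uniform probability on finite types: averaging, union bounds, homomorphisms. -/

namespace LieGirth

open Finset BigOperators

open Classical in
/-- The proportion of the points of a finite type that satisfy `p`. -/
noncomputable def pr {α : Type*} [Fintype α] (p : α → Prop) : ℝ :=
  𝔼 a, if p a then (1 : ℝ) else 0

variable {α β T : Type*} [Fintype α] [Fintype β] [Fintype T]

lemma pr_eq (p : α → Prop) : pr p = (Nat.card {a // p a} : ℝ) / Nat.card α := by
  classical
  unfold pr
  rw [Finset.expect_eq_sum_div_card, Nat.card_eq_fintype_card, Nat.card_eq_fintype_card,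
    Fintype.card_subtype, Finset.card_univ, Finset.sum_boole]

lemma pr_nonneg (p : α → Prop) : 0 ≤ pr p := by
  rw [pr_eq]; positivity

lemma pr_mono {p q : α → Prop} (h : ∀ a, p a → q a) : pr p ≤ pr q := by
  classical
  unfold pr
  refine Finset.expect_le_expect fun a _ => ?_
  by_cases hp : p a
  · simp [hp, h a hp]
  · simp only [hp, if_false]; split_ifs <;> norm_num

lemma pr_false {p : α → Prop} (h : ∀ a, ¬ p a) : pr p = 0 := by
  unfold pr; simp [h]

lemma pr_le_one (p : α → Prop) : pr p ≤ 1 := by
  classical
  rcases isEmpty_or_nonempty α with h | h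
  · rw [pr_false (fun a => (h.false a).elim)]; norm_num
  · unfold pr
    refine Finset.expect_le Finset.univ_nonempty fun a _ => ?_
    split_ifs <;> norm_num

lemma pr_or (p q : α → Prop) : pr (fun a => p a ∨ q a) ≤ pr p + pr q := by
  classical
  unfold pr
  rw [← Finset.expect_add_distrib]
  refine Finset.expect_le_expect fun a _ => ?_
  by_cases hp : p a <;> by_cases hq : q a <;> simp [hp, hq]

lemma pr_exists {ι : Type*} (S : Finset ι) (p : ι → α → Prop) {δ : ℝ}
    (h : ∀ i ∈ S, pr (p i) ≤ δ) : pr (fun a => ∃ i ∈ S, p i a) ≤ S.card * δ := by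
  classical
  induction S using Finset.induction_on with
  | empty => rw [pr_false (by simp)]; simp
  | insert j S hj ih =>
    have h1 : pr (fun a => ∃ i ∈ insert j S, p i a) ≤ pr (fun a => p j a ∨ ∃ i ∈ S, p i a) :=
      pr_mono fun a ha => by simpa using ha
    have h2 := pr_or (p j) (fun a => ∃ i ∈ S, p i a)
    have h3 := ih fun i hi => h i (Finset.mem_insert_of_mem hi)
    have h4 := h j (Finset.mem_insert_self _ _)
    rw [Finset.card_insert_of_notMem hj]
    push_cast
    linarith

lemma pr_bij (e : α → β) (he : Function.Bijective e) (p : β → Prop) :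
    pr (fun a => p (e a)) = pr p := by
  unfold pr
  exact Fintype.expect_bijective e he _ _ fun _ => rfl

lemma pr_act_eq [Nonempty T] (τ : T → α → α) (hτ : ∀ t, Function.Injective (τ t))
    (p : α → Prop) : pr p = 𝔼 a, pr (fun t => p (τ t a)) := by
  have h1 : ∀ t, pr (fun a => p (τ t a)) = pr p := fun t =>
    pr_bij (τ t) (Finite.injective_iff_bijective.1 (hτ t)) p
  calc pr p = 𝔼 t : T, pr (fun a => p (τ t a)) := by
        simp_rw [h1]; rw [Fintype.expect_const]
    _ = _ := by unfold pr; rw [Finset.expect_comm]

/-- Averaging over a family of permutations. -/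
lemma pr_act [Nonempty T] (τ : T → α → α) (hτ : ∀ t, Function.Injective (τ t))
    (p : α → Prop) {δ : ℝ} (hδ : 0 ≤ δ) (h : ∀ a, pr (fun t => p (τ t a)) ≤ δ) : pr p ≤ δ := by
  rcases isEmpty_or_nonempty α with h0 | h0
  · rw [pr_false (fun a => (h0.false a).elim)]; exact hδ
  · rw [pr_act_eq τ hτ p]
    exact Finset.expect_le Finset.univ_nonempty fun a _ => h a

lemma pr_prod_eq (p : α × β → Prop) : pr p = 𝔼 a, pr (fun b => p (a, b)) := by
  unfold pr
  rw [← Finset.univ_product_univ, Finset.expect_product]

lemma pr_fst [Nonempty β] (p : α → Prop) : pr (fun x : α × β => p x.1) = pr p := by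
  classical
  rw [pr_prod_eq]
  unfold pr
  refine Finset.expect_congr rfl fun a _ => ?_
  by_cases h : p a <;> simp [h]

lemma pr_prod_le (p : α × β → Prop) {δ : ℝ} (hδ : 0 ≤ δ) (h : ∀ a, pr (fun b => p (a, b)) ≤ δ) :
    pr p ≤ δ := by
  rcases isEmpty_or_nonempty α with h0 | h0
  · rw [pr_false (fun a => (h0.false a.1).elim)]; exact hδ
  · rw [pr_prod_eq]
    exact Finset.expect_le Finset.univ_nonempty fun a _ => h a

/-- A surjective homomorphism of finite groups pushes the uniform law to the uniform law. -/
lemma pr_hom {G H : Type*} [Group G] [Group H] [Fintype G] [Fintype H] (f : G →* H)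
    (hf : Function.Surjective f) (p : H → Prop) : pr (fun g => p (f g)) = pr p := by
  choose σ hσ using hf
  rw [pr_act_eq (fun (h : H) (g : G) => σ h * g) (fun h => mul_right_injective _)]
  have : ∀ g : G, pr (fun h : H => p (f (σ h * g))) = pr p := fun g => by
    simp only [map_mul, hσ]
    exact pr_bij (fun h => h * f g) (Group.mulRight_bijective _) p
  simp_rw [this]
  rw [Fintype.expect_const]

/-- The same for additive groups. -/
lemma pr_addHom {G H : Type*} [AddGroup G] [AddGroup H] [Fintype G] [Fintype H] (f : G →+ H)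
    (hf : Function.Surjective f) (p : H → Prop) : pr (fun g => p (f g)) = pr p := by
  choose σ hσ using hf
  rw [pr_act_eq (fun (h : H) (g : G) => σ h + g) (fun h => add_right_injective _)]
  have : ∀ g : G, pr (fun h : H => p (f (σ h + g))) = pr p := fun g => by
    simp only [map_add, hσ]
    exact pr_bij (fun h => h + f g) (AddGroup.addRight_bijective _) p
  simp_rw [this]
  rw [Fintype.expect_const]

end LieGirth
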