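import Pool.Agent.P.MP_d589a8_al.Lie.Pr
import Pool.Agent.P.MP_d589a8_al.Lie.Lead
import Pool.Agent.P.MP_d589a8_al.Lie.GR

/-! The matrix of a word in the letters `D x (1 ± P N Q) Di x̄`, and the algebraic bound. -/

namespace LieGirth

open Finset Matrix

variable {F κ I J β : Type} [Field F] [Fintype κ] [DecidableEq κ] [Fintype I] [DecidableEq I]
  [Fintype J] [DecidableEq J] [Fintype β] [DecidableEq β]

/-- The inverse letter. -/
def bar (x : β × Bool) : β × Bool := (x.1, !x.2)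

/-- The sign of a letter. -/
def sg (F : Type) [Field F] (x : β × Bool) : F := if x.2 then 1 else -1

lemma sg_ne (x : β × Bool) : sg F x ≠ 0 := by unfold sg; split_ifs <;> simp

/-- The data: two block matrices and two families of square matrices. -/
structure Dat (F κ I J β : Type) where
  P : Matrix κ I F
  Q : Matrix J κ F
  D : β × Bool → Matrix κ κ F
  Di : β × Bool → Matrix κ κ F

namespace Dat

variable (S : Dat F κ I J β)

/-- The matrix of a letter. -/
def lm (N : β → Matrix I J F) (x : β × Bool) : Matrix κ κ F :=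
  S.D x * (1 + S.P * (sg F x • N x.1) * S.Q) * S.Di (bar x)

/-- The matrix of a word. -/
def W (N : β → Matrix I J F) (L : List (β × Bool)) : Matrix κ κ F := (L.map (S.lm N)).prod

/-- The connecting blocks. -/
def C (x y : β × Bool) : Matrix J I F := S.Q * S.Di x * (S.D y * S.P)

/-- All connecting blocks between different letters have full rank. -/
def Good : Prop := ∀ x y, x ≠ y → ∀ φ, φ ᵥ* S.C x y = 0 → φ = 0

/-- The off-diagonal block of the word matrix, seen from the letter `z`, vanishes. -/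
def Ev (z : β × Bool) (L : List (β × Bool)) (N : β → Matrix I J F) : Prop :=
  S.Q * S.Di z * S.W N L * (S.D z * S.P) = 0

lemma lm_mulVec (N : β → Matrix I J F) (x : β × Bool) (w : κ → F) :
    S.lm N x *ᵥ w = (S.D x * S.Di (bar x)) *ᵥ w +
      sg F x • (S.D x * S.P) *ᵥ (N x.1 *ᵥ ((S.Q * S.Di (bar x)) *ᵥ w)) := by
  simp only [lm, Matrix.mulVec_mulVec, Matrix.mul_add, Matrix.add_mul, Matrix.mul_one,
    Matrix.add_mulVec, Matrix.mul_smul, Matrix.smul_mul, Matrix.smul_mulVec, Matrix.mul_assoc]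

end Dat

lemma chain_head {X : Type} {R : X → X → Prop} {x z : X} {L : List X}
    (hL : List.IsChain R (x :: L ++ [z])) : R x (L.headD z) := by
  cases L with
  | nil => simpa using hL
  | cons y L => exact (List.isChain_cons_cons.1 hL).1

lemma vmv (a : I → F) (φ u : J → F) : vecMulVec a φ *ᵥ u = (φ ⬝ᵥ u) • a := by
  rw [Matrix.vecMulVec_mulVec]; funext i; simp [mul_comm]

theorem Dat.zc_bound [Fintype F] (S : Dat F κ I J β) (hS : S.Good) (M : ℕ)
    (hM0 : (2 * Fintype.card β) ^ 2 ≤ M) (hM : M < Nat.card F) (s : ℕ)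
    (hs : ∀ r < s, 2 * (M * r) < Fintype.card J) (z : β × Bool) (L : List (β × Bool))
    (hz : L.headD z ≠ z) (hL : List.IsChain (fun x y => y ≠ bar x) (L ++ [z])) :
    pr (S.Ev z L) ≤ ((L.length : ℝ) / Nat.card F) ^ s := by
  classical
  let ι := {xy : (β × Bool) × (β × Bool) // xy.1 ≠ xy.2}
  have hι : Fintype.card ι ≤ M := by
    refine (Fintype.card_subtype_le _).trans (le_trans (le_of_eq ?_) hM0)
    simp only [Fintype.card_prod, Fintype.card_bool]; ring
  obtain ⟨p, φ, h⟩ := greedy (ι := ι) (hι.trans_lt hM) (fun a => S.C a.1.1 a.1.2)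
    (fun a => hS _ _ a.2) s (fun r hr => lt_of_le_of_lt
      (Nat.mul_le_mul_left 2 (Nat.mul_le_mul_right r hι)) (hs r hr))
  refine pr_act (fun (t : Fin s → F) (N : β → Matrix I J F) =>
    N + fun _ => ∑ l, t l • vecMulVec (p l) (φ l)) (fun t => add_left_injective _) _
    (by positivity) fun N => ?_
  rw [pr_eq, div_pow, Nat.card_fun, Nat.card_fin]
  push_cast
  gcongr
  have key := zero_count (F := F) (σ := Fin s)
    (fun t => S.Ev z L (N + fun _ => ∑ l, t l • vecMulVec (p l) (φ l))) L.length fun k => ?_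
  · rw [Fintype.card_fin] at key; exact_mod_cast key
  obtain ⟨c, hc, hlo⟩ := lead (S.lm N)
    (fun x l => sg F x • (S.D x * S.P * vecMulVec (p l) (φ l) * (S.Q * S.Di (bar x))))
    (fun y => (S.D y * S.P) *ᵥ p k) (fun x y => y ≠ bar x) k (fun x y hxy => by
      refine ⟨sg F x * (φ k ⬝ᵥ S.C (bar x) y *ᵥ p k), mul_ne_zero (sg_ne x) fun h0 =>
        (h ⟨(bar x, y), hxy.symm⟩ k k).1 h0 rfl, fun l => ?_⟩
      have h1 : (sg F x • (S.D x * S.P * vecMulVec (p l) (φ l) * (S.Q * S.Di (bar x)))) *ᵥ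
          ((S.D y * S.P) *ᵥ p k) =
          (sg F x * (φ l ⬝ᵥ S.C (bar x) y *ᵥ p k)) • (S.D x * S.P) *ᵥ p l := by
        rw [Matrix.smul_mulVec, ← Matrix.mulVec_mulVec, ← Matrix.mulVec_mulVec, vmv,
          Matrix.mulVec_smul, smul_smul, Dat.C, Matrix.mulVec_mulVec (p k)]
      rw [h1]
      split_ifs with hl
      · subst hl; rfl
      · rw [(h ⟨(bar x, y), hxy.symm⟩ l k).2 hl]; simp) z L hL
  refine ⟨c * (φ k ⬝ᵥ S.C z (L.headD z) *ᵥ p k), mul_ne_zero hc fun h0 =>
    (h ⟨(z, L.headD z), hz.symm⟩ k k).1 h0 rfl, _, hlo.dot (φ k ᵥ* (S.Q * S.Di z)), fun t ht => ?_⟩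
  have h1 : (fun x => S.lm N x + ∑ l, t l • (sg F x • (S.D x * S.P * vecMulVec (p l) (φ l) *
      (S.Q * S.Di (bar x))))) = S.lm (N + fun _ => ∑ l, t l • vecMulVec (p l) (φ l)) := by
    funext x
    simp only [Dat.lm, Pi.add_apply, smul_add, Matrix.mul_add, Matrix.add_mul, Finset.smul_sum,
      Matrix.mul_sum, Matrix.sum_mul, Matrix.mul_smul, Matrix.smul_mul, Matrix.mul_assoc,
      add_assoc, smul_comm (t _) (sg F x)]
  have h2 : (S.Q * S.Di z) *ᵥ (S.W (N + fun _ => ∑ l, t l • vecMulVec (p l) (φ l)) L *ᵥ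
      ((S.D z * S.P) *ᵥ p k)) = 0 := by
    rw [Matrix.mulVec_mulVec, Matrix.mulVec_mulVec, show _ = _ from ht, Matrix.zero_mulVec]
  simp only [h1]
  unfold Dat.W at h2
  rw [← Matrix.dotProduct_mulVec, Matrix.mulVec_sub, h2, Matrix.mulVec_smul,
    Matrix.mulVec_mulVec, zero_sub, dotProduct_neg, dotProduct_smul, smul_eq_mul, Dat.C]
  ring

end LieGirth
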