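import Mathlib

/-! Zero counting: `s` equations `c * t k ^ ℓ + (degree < ℓ) = 0` have at most `ℓ ^ s` solutions. -/

namespace LieGirth

open Finset

variable {F σ : Type} [Field F] [Fintype σ] [DecidableEq σ]

/-- The monomial function with exponent vector `e`. -/
def mono (e : σ → ℕ) : (σ → F) → F := fun t => ∏ k, t k ^ e k

/-- Polynomial functions of total degree `< d`. -/
def Lo (F σ : Type) [Field F] [Fintype σ] (d : ℕ) : Submodule F ((σ → F) → F) :=
  Submodule.span F {f | ∃ e : σ → ℕ, ∑ k, e k < d ∧ f = mono e}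

lemma Lo_mono {d d' : ℕ} (h : d ≤ d') : Lo F σ d ≤ Lo F σ d' :=
  Submodule.span_mono fun _ ⟨e, he, hf⟩ => ⟨e, he.trans_le h, hf⟩

lemma mono_mem {d : ℕ} (e : σ → ℕ) (h : ∑ k, e k < d) : (mono e : (σ → F) → F) ∈ Lo F σ d :=
  Submodule.subset_span ⟨e, h, rfl⟩

lemma mono_add (e e' : σ → ℕ) : (mono (e + e') : (σ → F) → F) = mono e * mono e' := by
  funext t; simp [mono, pow_add, Finset.prod_mul_distrib]

lemma mono_single (k : σ) (a : ℕ) (t : σ → F) : mono (Pi.single k a) t = t k ^ a := by
  unfold mono
  rw [Finset.prod_eq_single k]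
  · simp
  · intro b _ hb; simp [Pi.single_eq_of_ne hb]
  · simp

lemma mono_mul_mem {d : ℕ} (e : σ → ℕ) {f : (σ → F) → F} (hf : f ∈ Lo F σ d) :
    mono e * f ∈ Lo F σ (d + ∑ k, e k) := by
  induction hf using Submodule.span_induction with
  | mem f hf =>
    obtain ⟨e', he', rfl⟩ := hf
    rw [← mono_add]
    refine mono_mem _ ?_
    simp only [Pi.add_apply, Finset.sum_add_distrib]; omega
  | zero => simp
  | add f g _ _ hf hg => rw [mul_add]; exact add_mem hf hg
  | smul a f _ hf => rw [mul_smul_comm]; exact Submodule.smul_mem _ _ hf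

lemma coord_mul_mem {d : ℕ} (k : σ) {f : (σ → F) → F} (hf : f ∈ Lo F σ d) :
    (fun t => t k * f t) ∈ Lo F σ (d + 1) := by
  have h := mono_mul_mem (Pi.single k 1) hf
  have h1 : ∑ l, (Pi.single k 1 : σ → ℕ) l = 1 := by simp
  rw [h1] at h
  convert h using 1
  funext t; simp [mono_single]

lemma coord_pow_mem (k : σ) (r : ℕ) : (fun t : σ → F => t k ^ r) ∈ Lo F σ (r + 1) := by
  have h : (mono (Pi.single k r) : (σ → F) → F) ∈ Lo F σ (r + 1) := mono_mem _ (by simp)
  convert h using 1
  funext t; simp [mono_single]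

lemma exists_mem_Lo [Finite F] (f : (σ → F) → F) : ∃ d, f ∈ Lo F σ d := by
  classical
  have := Fintype.ofFinite F
  have h : f ∈ (MvPolynomial.restrictDegree σ F (Fintype.card F - 1)).map
      (MvPolynomial.evalₗ F σ) := by
    rw [MvPolynomial.map_restrict_dom_evalₗ]; trivial
  obtain ⟨p, -, rfl⟩ := h
  refine ⟨p.support.sup (fun e => ∑ k, e k) + 1, ?_⟩
  have : MvPolynomial.evalₗ F σ p = ∑ e ∈ p.support, p.coeff e • mono (fun k => e k) := by
    funext t
    simp [MvPolynomial.evalₗ_apply, MvPolynomial.eval_eq', mono, Finset.sum_apply]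
  rw [this]
  refine Submodule.sum_mem _ fun e he => Submodule.smul_mem _ _ (mono_mem _ ?_)
  exact Nat.lt_succ_of_le (Finset.le_sup (f := fun e : σ →₀ ℕ => ∑ k, e k) he)

theorem zero_count [Finite F] (Z : (σ → F) → Prop) (ℓ : ℕ)
    (h : ∀ k, ∃ c : F, c ≠ 0 ∧ ∃ g ∈ Lo F σ ℓ, ∀ t, Z t → c * t k ^ ℓ + g t = 0) :
    Nat.card {t // Z t} ≤ ℓ ^ Fintype.card σ := by
  classical
  have := Fintype.ofFinite F
  let res : ((σ → F) → F) →ₗ[F] ({t // Z t} → F) := LinearMap.funLeft F F Subtype.val
  let b : (σ → Fin ℓ) → ({t // Z t} → F) := fun e => res (mono fun k => (e k : ℕ))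
  have key : ∀ d, ∀ f ∈ Lo F σ d, res f ∈ Submodule.span F (Set.range b) := by
    intro d
    induction d with
    | zero =>
      intro f hf
      have : Lo F σ 0 = ⊥ := by simp [Lo]
      rw [this, Submodule.mem_bot] at hf
      simp [hf]
    | succ d ih =>
      intro f hf
      induction hf using Submodule.span_induction with
      | mem f hf =>
        obtain ⟨e, he, rfl⟩ := hf
        by_cases hl : ∀ k, e k < ℓ
        · exact Submodule.subset_span ⟨fun k => ⟨e k, hl k⟩, rfl⟩
        · push Not at hl
          obtain ⟨k, hk⟩ := hl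
          obtain ⟨c, hc, g, hg, hz⟩ := h k
          let e' : σ → ℕ := e - Pi.single k ℓ
          have hee : e = e' + Pi.single k ℓ := by
            funext l
            by_cases hlk : l = k
            · subst hlk; simp [e']; omega
            · simp [e', Pi.single_eq_of_ne hlk]
          have hs : ∑ l, e l = ∑ l, e' l + ℓ := by
            rw [hee]; simp [Finset.sum_add_distrib]
          have h1 : mono e' * g ∈ Lo F σ d :=
            Lo_mono (by omega) (mono_mul_mem e' hg)
          have h2 : res (mono e) = (-c⁻¹) • res (mono e' * g) := by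
            funext t
            have h3 := hz t.1 t.2
            have h4 : g t.1 = - (c * t.1 k ^ ℓ) := by linear_combination h3
            simp only [res, LinearMap.funLeft_apply, Pi.smul_apply, Pi.mul_apply, smul_eq_mul]
            rw [hee, mono_add, Pi.mul_apply, mono_single, h4]
            have : e' + Pi.single k ℓ - Pi.single k ℓ = e' := by simp
            field_simp
          rw [h2]
          exact Submodule.smul_mem _ _ (ih _ h1)
      | zero => simp
      | add f g _ _ hf hg => rw [map_add]; exact add_mem hf hg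
      | smul a f _ hf => rw [map_smul]; exact Submodule.smul_mem _ _ hf
  have htop : Submodule.span F (Set.range b) = ⊤ := by
    rw [eq_top_iff]
    intro u _
    obtain ⟨f, rfl⟩ := LinearMap.funLeft_surjective_of_injective F F Subtype.val
      Subtype.val_injective u
    obtain ⟨d, hd⟩ := exists_mem_Lo f
    exact key d f hd
  have h1 := finrank_range_le_card (R := F) b
  rw [Set.finrank, htop, finrank_top, Module.finrank_fintype_fun_eq_card] at h1
  rw [Nat.card_eq_fintype_card]
  simpa using h1

end LieGirth
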